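import Mathlib

/-! One-dimensional asymptotics of `d ∫ h(s)^d dγ(s)`. -/

set_option autoImplicit false
set_option linter.unusedSectionVars false
set_option linter.unusedVariables false

open MeasureTheory ProbabilityTheory Filter Topology Set
open scoped ENNReal NNReal

namespace Pool.Agent.V11331.SA

/-- The standard normal law. -/
noncomputable abbrev g : Measure ℝ := gaussianReal 0 1

/-- The standard normal density. -/
noncomputable def pdf (x : ℝ) : ℝ := (Real.sqrt (2 * Real.pi))⁻¹ * Real.exp (-x ^ 2 / 2)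

lemma pdf_eq (x : ℝ) : gaussianPDFReal 0 1 x = pdf x := by
  rw [gaussianPDFReal_def]; simp [pdf]

lemma pdf_pos (x : ℝ) : 0 < pdf x := by unfold pdf; positivity

lemma pdf_cont : Continuous pdf := by unfold pdf; fun_prop

lemma pdf_anti {x r : ℝ} (h : |x| ≤ |r|) : pdf r ≤ pdf x := by
  unfold pdf
  have : x ^ 2 ≤ r ^ 2 := sq_le_sq.2 h
  gcongr

lemma pdf_le (x : ℝ) : pdf x ≤ pdf 0 := pdf_anti (by simp)

lemma int_g (f : ℝ → ℝ) : ∫ x, f x ∂g = ∫ x, pdf x * f x := by
  rw [integral_gaussianReal_eq_integral_smul one_ne_zero]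
  simp_rw [pdf_eq, smul_eq_mul]

lemma pdf_int : Integrable pdf := by
  have := integrable_gaussianPDFReal 0 1
  refine this.congr (ae_of_all _ fun x => ?_)
  simp [pdf_eq]

lemma g_real (s : Set ℝ) : g.real s = ∫ x in s, pdf x := by
  rw [measureReal_def, gaussianReal_apply_eq_integral _ one_ne_zero, ENNReal.toReal_ofReal]
  · simp_rw [pdf_eq]
  · exact integral_nonneg fun x => by rw [pdf_eq]; exact (pdf_pos x).le

lemma abs_lt_set (r : ℝ) : {t : ℝ | |t| < r} = Ioo (-r) r := by
  ext t; simp [abs_lt]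

lemma phi_bounds {r : ℝ} (hr : 0 ≤ r) :
    2 * r * pdf r ≤ g.real {t | |t| < r} ∧ g.real {t | |t| < r} ≤ 2 * r * pdf 0 := by
  rw [abs_lt_set, g_real]
  have hv : volume.real (Ioo (-r) r) = 2 * r := by
    rw [Real.volume_real_Ioo_of_le (by linarith)]; ring
  have hc : ∀ a : ℝ, ∫ x in Ioo (-r) r, a = 2 * r * a := by
    intro a; rw [setIntegral_const, hv, smul_eq_mul]
  constructor
  · rw [← hc]
    refine setIntegral_mono_on ?_ pdf_int.integrableOn measurableSet_Ioo ?_
    · exact integrableOn_const (by simp) (by simp)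
    · intro x hx
      refine pdf_anti ?_
      rw [abs_of_nonneg hr]
      exact (abs_lt.2 hx).le
  · rw [← hc]
    refine setIntegral_mono_on pdf_int.integrableOn ?_ measurableSet_Ioo ?_
    · exact integrableOn_const (by simp) (by simp)
    · intro x hx
      exact pdf_le x

lemma phi_lower {r : ℝ} (hr : 0 ≤ r) : 2 * pdf 1 * min 1 r ≤ g.real {t | |t| < r} := by
  have h1 : 0 ≤ min 1 r := le_min zero_le_one hr
  have h2 := (phi_bounds h1).1
  have h3 : g.real {t | |t| < min 1 r} ≤ g.real {t | |t| < r} :=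
    measureReal_mono (fun t (ht : |t| < min 1 r) =>
      (show |t| < r from lt_of_lt_of_le ht (min_le_right _ _)))
  have h4 : pdf 1 ≤ pdf (min 1 r) := pdf_anti (by
    rw [abs_of_nonneg h1, abs_one]; exact min_le_left _ _)
  nlinarith

lemma phi_le (r : ℝ) : g.real {t | |t| < r} ≤ 2 * pdf 0 * |r| := by
  by_cases hr : 0 ≤ r
  · rw [abs_of_nonneg hr]; have := (phi_bounds hr).2; linarith
  · have : {t : ℝ | |t| < r} = ∅ := by
      ext t
      simp only [mem_ofPred_eq, mem_empty_iff_false, iff_false, not_lt]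
      have := abs_nonneg t
      linarith
    rw [this]
    simp only [measureReal_empty]
    have := (pdf_pos 0).le
    positivity

lemma phi_lim (a : ℝ) : Tendsto (fun d : ℕ => (d : ℝ) * g.real {t | |t| < a / d}) atTop
    (𝓝 (2 * pdf 0 * max a 0)) := by
  by_cases ha : 0 ≤ a
  · rw [max_eq_left ha]
    have h1 : Tendsto (fun d : ℕ => 2 * a * pdf (a / d)) atTop (𝓝 (2 * a * pdf 0)) := by
      refine Tendsto.const_mul _ ?_
      exact (pdf_cont.tendsto 0).comp (tendsto_const_div_atTop_nhds_zero_nat a)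
    have e : 2 * pdf 0 * a = 2 * a * pdf 0 := by ring
    rw [e]
    refine tendsto_of_tendsto_of_tendsto_of_le_of_le' h1 tendsto_const_nhds ?_ ?_
    · filter_upwards [eventually_gt_atTop 0] with d hd
      have hd' : (0 : ℝ) < d := by exact_mod_cast hd
      have h2 := (phi_bounds (show 0 ≤ a / d by positivity)).1
      calc 2 * a * pdf (a / d) = d * (2 * (a / d) * pdf (a / d)) := by field_simp
        _ ≤ _ := by gcongr
    · filter_upwards [eventually_gt_atTop 0] with d hd
      have hd' : (0 : ℝ) < d := by exact_mod_cast hd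
      have h2 := (phi_bounds (show 0 ≤ a / d by positivity)).2
      calc (d : ℝ) * g.real {t | |t| < a / d} ≤ d * (2 * (a / d) * pdf 0) := by gcongr
        _ = 2 * a * pdf 0 := by field_simp
  · push Not at ha
    rw [max_eq_right ha.le, mul_zero]
    refine tendsto_const_nhds.congr fun d => ?_
    have : {t : ℝ | |t| < a / d} = ∅ := by
      ext t
      simp only [mem_ofPred_eq, mem_empty_iff_false, iff_false, not_lt]
      have h1 := abs_nonneg t
      have h2 : a / d ≤ 0 := div_nonpos_of_nonpos_of_nonneg ha.le (Nat.cast_nonneg d)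
      linarith
    rw [this]; simp

lemma exp_abs {a : ℝ} (ha : 0 < a) : ∫ x : ℝ, Real.exp (-a * |x|) = 2 / a := by
  rw [integral_comp_abs (f := fun x => Real.exp (-a * x)), integral_exp_mul_Ioi (by linarith)]
  simp
  field_simp

lemma exp_abs_int {a : ℝ} (ha : 0 < a) : Integrable fun x : ℝ => Real.exp (-a * |x|) := by
  by_contra h
  have h1 := exp_abs ha
  rw [integral_undef h] at h1
  have : 0 < 2 / a := by positivity
  linarith

lemma exp_abs_g {a : ℝ} (ha : 0 < a) : ∫ x : ℝ, Real.exp (-a * |x|) ∂g ≤ 2 * pdf 0 / a := by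
  rw [int_g]
  calc ∫ x, pdf x * Real.exp (-a * |x|) ≤ ∫ x, pdf 0 * Real.exp (-a * |x|) := by
        refine integral_mono_of_nonneg (ae_of_all _ fun x => ?_)
          ((exp_abs_int ha).const_mul _) (ae_of_all _ fun x => ?_)
        · have := (pdf_pos x).le; positivity
        · exact mul_le_mul_of_nonneg_right (pdf_le x) (Real.exp_pos _).le
    _ = 2 * pdf 0 / a := by rw [integral_const_mul, exp_abs ha]; ring

variable {W : Type} [MeasurableSpace W] (P : Measure W) [IsProbabilityMeasure P] {n : ℕ}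
  (c : W → Fin n → ℝ) (hc : Measurable c) (b : Fin n → ℝ)

/-- the good set -/
def SS (s : ℝ) : Set (ℝ × W) := {p | ∀ i, |p.1 / s| * b i ≤ c p.2 i}

/-- its probability -/
noncomputable def hh (s : ℝ) : ℝ := (g.prod P).real (SS c b s)

include hc in
lemma SS_meas3 : MeasurableSet {p : (ℝ × (Fin n → ℝ)) × (ℝ × W) |
    ∀ i, |p.2.1 / p.1.1| * p.1.2 i ≤ c p.2.2 i} := by
  have : {p : (ℝ × (Fin n → ℝ)) × (ℝ × W) |
    ∀ i, |p.2.1 / p.1.1| * p.1.2 i ≤ c p.2.2 i} =
    ⋂ i, {p : (ℝ × (Fin n → ℝ)) × (ℝ × W) | |p.2.1 / p.1.1| * p.1.2 i ≤ c p.2.2 i} := by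
    ext p; simp
  rw [this]
  have hci : ∀ i, Measurable fun w => c w i := fun i => (measurable_pi_apply i).comp hc
  refine MeasurableSet.iInter fun i => measurableSet_le ?_ ?_
  · fun_prop
  · exact (hci i).comp (measurable_snd.comp measurable_snd)

include hc in
lemma SS_meas (s : ℝ) : MeasurableSet (SS c b s) :=
  (SS_meas3 c hc).preimage (measurable_prodMk_left (x := (s, b)))

include hc in
lemma hh_meas : Measurable fun p : ℝ × (Fin n → ℝ) => hh P c p.2 p.1 := by
  unfold hh
  simp only [measureReal_def]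
  refine Measurable.ennreal_toReal ?_
  exact measurable_measure_prodMk_left (SS_meas3 c hc)

include hc in
lemma hh_meas1 : Measurable fun s : ℝ => hh P c b s :=
  (hh_meas P c hc).comp (measurable_id.prodMk measurable_const)

lemma hh_nonneg (s : ℝ) : 0 ≤ hh P c b s := measureReal_nonneg
lemma hh_le_one (s : ℝ) : hh P c b s ≤ 1 := measureReal_le_one

include hc in
lemma one_sub_hh (s : ℝ) : 1 - hh P c b s = (g.prod P).real (SS c b s)ᶜ := by
  rw [probReal_compl_eq_one_sub (SS_meas c hc b s)]; rfl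

/-- constants for the domination -/
structure Dom (P : Measure W) (c : W → Fin n → ℝ) (η : ℝ) (σ : ℝ) (i0 : Fin n) : Prop where
  σpos : 0 < σ
  ηpos : 0 < η
  ηle : η ≤ P.real {w | c w i0 < -σ} * (2 * pdf 1)

include hc in
lemma dom {η σ : ℝ} {i0 : Fin n} (D : Dom P c η σ i0) (s : ℝ) :
    hh P c b s ≤ 1 - η * min 1 (|s| / (1 + |b i0| / σ)) := by
  obtain ⟨hσ, hη, hle⟩ := D
  have hρ : 0 < 1 + |b i0| / σ := by positivity
  have h1 : {t : ℝ | |t| < |s| / (1 + |b i0| / σ)} ×ˢ {w | c w i0 < -σ} ⊆ (SS c b s)ᶜ := by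
    rintro ⟨t, w⟩ ⟨ht, hw⟩
    simp only [mem_ofPred_eq] at ht hw
    simp only [SS, mem_compl_iff, mem_ofPred_eq, not_forall, not_le]
    refine ⟨i0, ?_⟩
    have hs : 0 < |s| := by
      by_contra hs
      have : |s| = 0 := le_antisymm (not_lt.1 hs) (abs_nonneg s)
      rw [this, zero_div] at ht
      exact absurd ht (not_lt.2 (abs_nonneg t))
    have h2 : |t / s| * (1 + |b i0| / σ) < 1 := by
      rw [abs_div, div_mul_eq_mul_div, div_lt_one hs]
      rwa [lt_div_iff₀ hρ] at ht
    have h3 : |t / s| * (|b i0| / σ) < 1 := by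
      nlinarith [abs_nonneg (t / s)]
    have h4 : |t / s| * |b i0| < σ := by
      rw [← mul_div_assoc, div_lt_one hσ] at h3
      exact h3
    have h5 : -(|t / s| * |b i0|) ≤ |t / s| * b i0 := by
      have := neg_abs_le (b i0)
      nlinarith [abs_nonneg (t / s)]
    linarith
  have h2 : (g.prod P).real ({t : ℝ | |t| < |s| / (1 + |b i0| / σ)} ×ˢ {w | c w i0 < -σ}) ≤
      (g.prod P).real (SS c b s)ᶜ := measureReal_mono h1
  rw [measureReal_prod_prod, ← one_sub_hh P c hc b s] at h2
  have h3 := phi_lower (show 0 ≤ |s| / (1 + |b i0| / σ) by positivity)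
  have h4 : 0 ≤ P.real {w | c w i0 < -σ} := measureReal_nonneg
  have h5 : 0 ≤ min 1 (|s| / (1 + |b i0| / σ)) := le_min zero_le_one (by positivity)
  have h6 : η * min 1 (|s| / (1 + |b i0| / σ)) ≤
      P.real {w | c w i0 < -σ} * (2 * pdf 1) * min 1 (|s| / (1 + |b i0| / σ)) := by gcongr
  have h7 : P.real {w | c w i0 < -σ} * (2 * pdf 1) * min 1 (|s| / (1 + |b i0| / σ)) ≤
      g.real {t : ℝ | |t| < |s| / (1 + |b i0| / σ)} * P.real {w | c w i0 < -σ} := by
    calc _ = P.real {w | c w i0 < -σ} * (2 * pdf 1 * min 1 (|s| / (1 + |b i0| / σ))) := by ring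
      _ ≤ P.real {w | c w i0 < -σ} * g.real {t : ℝ | |t| < |s| / (1 + |b i0| / σ)} := by gcongr
      _ = _ := by ring
  linarith

include hc in
lemma dom_pow {η σ : ℝ} {i0 : Fin n} (D : Dom P c η σ i0) (s : ℝ) (d : ℕ) :
    hh P c b s ^ d ≤ Real.exp (-(d * (η * min 1 (|s| / (1 + |b i0| / σ))))) := by
  have h1 := dom P c hc b D s
  have h2 := Real.add_one_le_exp (-(η * min 1 (|s| / (1 + |b i0| / σ))))
  calc hh P c b s ^ d ≤ (Real.exp (-(η * min 1 (|s| / (1 + |b i0| / σ))))) ^ d :=
        pow_le_pow_left₀ (hh_nonneg P c b s) (by linarith) d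
    _ = _ := by rw [← Real.exp_nat_mul]; congr 1; ring

include hc in
lemma bound {η σ : ℝ} {i0 : Fin n} (D : Dom P c η σ i0) (d : ℕ) :
    d * ∫ s, hh P c b s ^ d ∂g ≤ (1 + 2 * pdf 0) / η * (1 + |b i0| / σ) := by
  obtain ⟨hσ, hη, hle⟩ := id D
  set ρ := 1 + |b i0| / σ with hρ
  have hρ1 : 1 ≤ ρ := by have : 0 ≤ |b i0| / σ := by positivity
                         linarith
  have hp0 := pdf_pos 0
  rcases Nat.eq_zero_or_pos d with rfl | hd
  · simp only [Nat.cast_zero, zero_mul]; positivity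
  have hd' : (0 : ℝ) < d := by exact_mod_cast hd
  have ha : 0 < d * η / ρ := by positivity
  have h1 : ∀ s, hh P c b s ^ d ≤ Real.exp (-(d * η)) + Real.exp (-(d * η / ρ) * |s|) := by
    intro s
    refine (dom_pow P c hc b D s d).trans ?_
    rcases le_total 1 (|s| / ρ) with h | h
    · rw [min_eq_left h, mul_one]
      have := (Real.exp_pos (-(d * η / ρ) * |s|)).le
      linarith
    · rw [min_eq_right h]
      have e : -((d : ℝ) * (η * (|s| / ρ))) = -(d * η / ρ) * |s| := by ring
      rw [e]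
      have := (Real.exp_pos (-((d : ℝ) * η))).le
      linarith
  have hgi : Integrable (fun s => Real.exp (-(d * η / ρ) * |s|)) g := by
    refine Integrable.of_bound (by fun_prop) 1 (ae_of_all _ fun s => ?_)
    rw [Real.norm_eq_abs, abs_of_pos (Real.exp_pos _), Real.exp_le_one_iff]
    have := abs_nonneg s
    nlinarith
  have h2 : ∫ s, hh P c b s ^ d ∂g ≤ Real.exp (-(d * η)) + 2 * pdf 0 / (d * η / ρ) := by
    calc ∫ s, hh P c b s ^ d ∂g ≤
        ∫ s, (Real.exp (-(d * η)) + Real.exp (-(d * η / ρ) * |s|)) ∂g := by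
          refine integral_mono_of_nonneg (ae_of_all _ fun s => pow_nonneg (hh_nonneg P c b s) d)
            ((integrable_const _).add hgi) (ae_of_all _ h1)
      _ = Real.exp (-(d * η)) + ∫ s, Real.exp (-(d * η / ρ) * |s|) ∂g := by
          rw [integral_add (integrable_const _) hgi]; simp
      _ ≤ _ := by have := exp_abs_g ha; linarith
  have h3 : (d : ℝ) * Real.exp (-(d * η)) ≤ 1 / η := by
    have h4 := Real.add_one_le_exp ((d : ℝ) * η)
    rw [Real.exp_neg, ← div_eq_mul_inv, div_le_div_iff₀ (Real.exp_pos _) hη]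
    linarith
  calc (d : ℝ) * ∫ s, hh P c b s ^ d ∂g ≤ d * (Real.exp (-(d * η)) + 2 * pdf 0 / (d * η / ρ)) := by
        gcongr
    _ = d * Real.exp (-(d * η)) + 2 * pdf 0 / η * ρ := by field_simp
    _ ≤ 1 / η * ρ + 2 * pdf 0 / η * ρ := by
        have : 1 / η ≤ 1 / η * ρ := by
          have : 0 < 1 / η := by positivity
          nlinarith
        linarith
    _ = _ := by ring

end Pool.Agent.V11331.SA
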