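import Pool.Agent.V11331.SA.Asy

/-! One-dimensional asymptotics, continued. -/

set_option autoImplicit false
set_option linter.unusedSectionVars false
set_option linter.unusedVariables false

open MeasureTheory ProbabilityTheory Filter Topology Set
open scoped ENNReal NNReal

namespace Pool.Agent.V11331.SA

variable {W : Type} [MeasurableSpace W] (P : Measure W) [IsProbabilityMeasure P] {n : ℕ}
  (c : W → Fin n → ℝ) (hc : Measurable c) (b : Fin n → ℝ)

include hc in
lemma hh_pow_int (d : ℕ) (ν : Measure ℝ) [IsFiniteMeasure ν] :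
    Integrable (fun s => hh P c b s ^ d) ν := by
  refine Integrable.of_bound ((hh_meas1 P c hc b).pow_const d).aestronglyMeasurable 1
    (ae_of_all _ fun s => ?_)
  rw [Real.norm_eq_abs, abs_of_nonneg (pow_nonneg (hh_nonneg P c b s) d)]
  exact pow_le_one₀ (hh_nonneg P c b s) (hh_le_one P c b s)

include hc in
lemma far_zero {η σ : ℝ} {i0 : Fin n} (D : Dom P c η σ i0) :
    Tendsto (fun d : ℕ => (d : ℝ) * ∫ s in {s : ℝ | |s| ≤ 1}ᶜ, hh P c b s ^ d ∂g) atTop (𝓝 0) := by
  obtain ⟨hσ, hη, hle⟩ := id D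
  set ρ := 1 + |b i0| / σ with hρ
  have hρ1 : 1 ≤ ρ := by have : 0 ≤ |b i0| / σ := by positivity
                         linarith
  have hr1 : Real.exp (-(η / ρ)) < 1 := by
    rw [Real.exp_lt_one_iff]
    have : 0 < η / ρ := by positivity
    linarith
  refine squeeze_zero (fun d => ?_) (fun d => ?_)
    (tendsto_self_mul_const_pow_of_lt_one (Real.exp_pos _).le hr1)
  · exact mul_nonneg (Nat.cast_nonneg d) (integral_nonneg fun s =>
      pow_nonneg (hh_nonneg P c b s) d)
  · refine mul_le_mul_of_nonneg_left ?_ (Nat.cast_nonneg d)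
    have hm : MeasurableSet {s : ℝ | |s| ≤ 1}ᶜ :=
      (measurableSet_le (by fun_prop) (by fun_prop)).compl
    calc ∫ s in {s : ℝ | |s| ≤ 1}ᶜ, hh P c b s ^ d ∂g ≤
        ∫ s in {s : ℝ | |s| ≤ 1}ᶜ, Real.exp (-(η / ρ)) ^ d ∂g := by
          refine setIntegral_mono_on (hh_pow_int P c hc b d g).integrableOn
            (integrable_const _).integrableOn hm ?_
          intro s hs
          simp only [mem_compl_iff, mem_ofPred_eq, not_le] at hs
          refine (dom_pow P c hc b D s d).trans ?_
          rw [← Real.exp_nat_mul, Real.exp_le_exp]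
          have h1 : 1 / ρ ≤ min 1 (|s| / ρ) := by
            refine le_min ?_ ?_
            · rw [div_le_one (by linarith)]; exact hρ1
            · gcongr
          have h2 : (d : ℝ) * (η * (1 / ρ)) ≤ d * (η * min 1 (|s| / ρ)) := by gcongr
          have h3 : (d : ℝ) * -(η / ρ) = -(d * (η * (1 / ρ))) := by ring
          rw [h3]
          linarith
      _ = g.real {s : ℝ | |s| ≤ 1}ᶜ * Real.exp (-(η / ρ)) ^ d := by
          rw [setIntegral_const, smul_eq_mul]
      _ ≤ 1 * Real.exp (-(η / ρ)) ^ d := by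
          gcongr
          exact measureReal_le_one
      _ = _ := one_mul _

include hc in
lemma near_lim {η σ : ℝ} {i0 : Fin n} (D : Dom P c η σ i0) (κ : ℝ)
    (hlim : ∀ u : ℝ, u ≠ 0 → Tendsto (fun d : ℕ => (d : ℝ) * (1 - hh P c b (u / d))) atTop
      (𝓝 (κ * |u|))) :
    Tendsto (fun d : ℕ => (d : ℝ) * ∫ s in {s : ℝ | |s| ≤ 1}, hh P c b s ^ d ∂g) atTop
      (𝓝 (∫ u, pdf 0 * Real.exp (-(κ * |u|)))) ∧
    Integrable (fun u => pdf 0 * Real.exp (-(κ * |u|))) := by
  obtain ⟨hσ, hη, hle⟩ := id D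
  set ρ := 1 + |b i0| / σ with hρ
  have hρ1 : 1 ≤ ρ := by have : 0 ≤ |b i0| / σ := by positivity
                         linarith
  have hm : MeasurableSet {s : ℝ | |s| ≤ 1} := measurableSet_le (by fun_prop) (by fun_prop)
  set F : ℕ → ℝ → ℝ := fun d u => pdf (u / d) *
    ({s : ℝ | |s| ≤ 1}.indicator (fun s => hh P c b s ^ d) (u / d)) with hF
  have h1 : ∀ d : ℕ, 0 < d → (d : ℝ) * ∫ s in {s : ℝ | |s| ≤ 1}, hh P c b s ^ d ∂g =
      ∫ u, F d u := by
    intro d hd
    have hd' : (0 : ℝ) < d := by exact_mod_cast hd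
    rw [← integral_indicator hm, int_g, hF]
    have := Measure.integral_comp_div (fun s : ℝ => pdf s *
      ({s : ℝ | |s| ≤ 1}.indicator (fun s => hh P c b s ^ d) s)) (d : ℝ)
    rw [this, abs_of_pos hd', smul_eq_mul]
  have hmeas : ∀ d : ℕ, AEStronglyMeasurable (F d) volume := by
    intro d
    have hi : Measurable ({s : ℝ | |s| ≤ 1}.indicator (fun s => hh P c b s ^ d)) :=
      ((hh_meas1 P c hc b).pow_const d).indicator hm
    exact ((pdf_cont.measurable.comp (measurable_id.div_const _)).mul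
      (hi.comp (measurable_id.div_const _))).aestronglyMeasurable
  have hbd : ∀ d : ℕ, ∀ᵐ u : ℝ, 0 < d → ‖F d u‖ ≤ pdf 0 * Real.exp (-(η / ρ) * |u|) := by
    intro d
    refine ae_of_all _ fun u hd => ?_
    have hd' : (0 : ℝ) < d := by exact_mod_cast hd
    have hE : 0 ≤ {s : ℝ | |s| ≤ 1}.indicator (fun s => hh P c b s ^ d) (u / d) ∧
        {s : ℝ | |s| ≤ 1}.indicator (fun s => hh P c b s ^ d) (u / d) ≤
          Real.exp (-(η / ρ) * |u|) := by
      by_cases hu : |u / d| ≤ 1
      · rw [indicator_of_mem (by exact hu)]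
        refine ⟨pow_nonneg (hh_nonneg P c b _) d, ?_⟩
        refine (dom_pow P c hc b D (u / d) d).trans ?_
        rw [Real.exp_le_exp]
        have h2 : |u / d| / ρ ≤ 1 := by
          rw [div_le_one (by linarith)]; linarith
        rw [← hρ, min_eq_right h2, abs_div, abs_of_pos hd']
        have : (d : ℝ) * (η * (|u| / d / ρ)) = η / ρ * |u| := by field_simp
        rw [this]
        linarith
      · rw [indicator_of_notMem (by exact hu)]
        exact ⟨le_rfl, (Real.exp_pos _).le⟩
    rw [hF]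
    simp only
    rw [norm_mul, Real.norm_eq_abs, Real.norm_eq_abs, abs_of_pos (pdf_pos _), abs_of_nonneg hE.1]
    exact mul_le_mul (pdf_le _) hE.2 hE.1 (pdf_pos 0).le
  have hlim2 : ∀ᵐ u : ℝ, Tendsto (fun d : ℕ => F d u) atTop
      (𝓝 (pdf 0 * Real.exp (-(κ * |u|)))) := by
    have h0 : ∀ᵐ u : ℝ, u ≠ 0 := by rw [ae_iff]; simp
    filter_upwards [h0] with u hu
    refine Tendsto.mul ((pdf_cont.tendsto 0).comp (tendsto_const_div_atTop_nhds_zero_nat u)) ?_
    have h2 := (hlim u hu).neg
    have h3 : Tendsto (fun d : ℕ => (d : ℝ) * (hh P c b (u / d) - 1)) atTop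
        (𝓝 (-(κ * |u|))) := by
      refine h2.congr fun d => by ring
    have h4 := Real.tendsto_one_add_pow_exp_of_tendsto h3
    refine h4.congr' ?_
    have h5 : ∀ᶠ d : ℕ in atTop, |u / (d : ℝ)| ≤ 1 := by
      have : Tendsto (fun d : ℕ => |u / (d : ℝ)|) atTop (𝓝 |0|) :=
        (tendsto_const_div_atTop_nhds_zero_nat u).abs
      rw [abs_zero] at this
      exact (this.eventually (gt_mem_nhds zero_lt_one)).mono fun d hd => hd.le
    filter_upwards [h5] with d hd
    rw [indicator_of_mem (by exact hd)]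
    congr 1
    ring
  have hint : Integrable (fun u : ℝ => pdf 0 * Real.exp (-(η / ρ) * |u|)) :=
    (exp_abs_int (by positivity)).const_mul _
  have key := tendsto_integral_of_dominated_convergence (F := fun d => F (d + 1))
    (fun u : ℝ => pdf 0 * Real.exp (-(η / ρ) * |u|)) (fun d => hmeas (d + 1)) hint
    (fun d => (hbd (d + 1)).mono fun u hu => hu (Nat.succ_pos d))
    (hlim2.mono fun u hu => hu.comp (tendsto_add_atTop_nat 1))
  constructor
  · rw [← tendsto_add_atTop_iff_nat 1]
    refine key.congr fun d => ?_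
    exact (h1 (d + 1) (Nat.succ_pos d)).symm
  · refine hint.mono' ?_ ?_
    · have : Measurable fun u : ℝ => pdf 0 * Real.exp (-(κ * |u|)) := by fun_prop
      exact this.aestronglyMeasurable
    · have hall : ∀ᵐ u : ℝ, ∀ d : ℕ, 0 < d → ‖F d u‖ ≤ pdf 0 * Real.exp (-(η / ρ) * |u|) :=
        ae_all_iff.2 hbd
      filter_upwards [hlim2, hall] with u hu hb
      refine le_of_tendsto hu.norm ?_
      filter_upwards [eventually_gt_atTop 0] with d hd
      exact hb d hd

include hc in
lemma full_lim {η σ : ℝ} {i0 : Fin n} (D : Dom P c η σ i0) (κ : ℝ)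
    (hlim : ∀ u : ℝ, u ≠ 0 → Tendsto (fun d : ℕ => (d : ℝ) * (1 - hh P c b (u / d))) atTop
      (𝓝 (κ * |u|))) :
    ∃ L : ℝ, 0 < L ∧ Tendsto (fun d : ℕ => (d : ℝ) * ∫ s, hh P c b s ^ d ∂g) atTop (𝓝 L) := by
  obtain ⟨h1, h2⟩ := near_lim P c hc b D κ hlim
  have h3 := far_zero P c hc b D
  refine ⟨∫ u, pdf 0 * Real.exp (-(κ * |u|)), ?_, ?_⟩
  · rw [integral_const_mul]
    refine mul_pos (pdf_pos 0) (integral_exp_pos ?_)
    have h4 := h2.const_mul (pdf 0)⁻¹
    refine h4.congr (ae_of_all _ fun u => ?_)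
    have := (pdf_pos 0).ne'
    field_simp
  · have h4 := h1.add h3
    rw [add_zero] at h4
    refine h4.congr fun d => ?_
    have hm : MeasurableSet {s : ℝ | |s| ≤ 1} := measurableSet_le (by fun_prop) (by fun_prop)
    rw [← mul_add, integral_add_compl hm (hh_pow_int P c hc b d g)]

lemma half_lim (i : Fin n) (hi : 0 ≤ b i) (hP : P.real {w | 0 ≤ c w i} ≤ 1 / 2) :
    Tendsto (fun d : ℕ => (d : ℝ) * ∫ s, hh P c b s ^ d ∂g) atTop (𝓝 0) := by
  have h1 : ∀ s, hh P c b s ≤ 1 / 2 := by
    intro s
    have h2 : SS c b s ⊆ (univ : Set ℝ) ×ˢ {w | 0 ≤ c w i} := by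
      rintro ⟨t, w⟩ h
      refine ⟨mem_univ _, ?_⟩
      have := h i
      simp only at this
      show 0 ≤ c w i
      have h3 : 0 ≤ |t / s| * b i := by positivity
      linarith
    calc hh P c b s ≤ (g.prod P).real ((univ : Set ℝ) ×ˢ {w | 0 ≤ c w i}) := measureReal_mono h2
      _ = P.real {w | 0 ≤ c w i} := by rw [measureReal_prod_prod]; simp
      _ ≤ _ := hP
  refine squeeze_zero (fun d => ?_) (fun d => ?_)
    (tendsto_self_mul_const_pow_of_lt_one (r := 1 / 2) (by norm_num) (by norm_num))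
  · exact mul_nonneg (Nat.cast_nonneg d) (integral_nonneg fun s =>
      pow_nonneg (hh_nonneg P c b s) d)
  · refine mul_le_mul_of_nonneg_left ?_ (Nat.cast_nonneg d)
    calc ∫ s, hh P c b s ^ d ∂g ≤ ∫ s, (1 / 2 : ℝ) ^ d ∂g := by
          refine integral_mono_of_nonneg (ae_of_all _ fun s => pow_nonneg (hh_nonneg P c b s) d)
            (integrable_const _) (ae_of_all _ fun s => ?_)
          exact pow_le_pow_left₀ (hh_nonneg P c b s) (h1 s) d
      _ = _ := by simp

include hc in
lemma slope_lim [NeZero n] (hb : ∀ i, b i < 0) (hci : ∀ i, Integrable (fun w => c w i) P) :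
    ∃ κ : ℝ, ∀ u : ℝ, u ≠ 0 → Tendsto (fun d : ℕ => (d : ℝ) * (1 - hh P c b (u / d))) atTop
      (𝓝 (κ * |u|)) := by
  have hne : (Finset.univ : Finset (Fin n)).Nonempty := ⟨0, Finset.mem_univ _⟩
  set R : W → ℝ := fun w => Finset.univ.sup' hne (fun i => c w i / b i) with hR
  have hcm : ∀ i, Measurable fun w => c w i := fun i => (measurable_pi_apply i).comp hc
  have hRm : Measurable R := by
    have := Finset.measurable_sup' hne (f := fun i w => c w i / b i)
      (fun i _ => (hcm i).div_const _)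
    have he : R = Finset.univ.sup' hne (fun i w => c w i / b i) := by
      ext w
      simp [hR, Finset.sup'_apply]
    rw [he]; exact this
  have hRi : Integrable R P := by
    have h1 : Integrable (fun w => ∑ i, |c w i / b i|) P :=
      integrable_finsetSum _ fun i _ => ((hci i).div_const _).abs
    refine h1.mono' hRm.aestronglyMeasurable (ae_of_all _ fun w => ?_)
    rw [Real.norm_eq_abs]
    obtain ⟨i, _, hi⟩ := Finset.exists_mem_eq_sup' hne (fun i => c w i / b i)
    have : R w = c w i / b i := hi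
    rw [this]
    exact Finset.single_le_sum (f := fun i => |c w i / b i|) (fun i _ => abs_nonneg _)
      (Finset.mem_univ i)
  refine ⟨∫ w, 2 * pdf 0 * max (R w) 0 ∂P, fun u hu => ?_⟩
  have h1 : ∀ s : ℝ, s ≠ 0 → 1 - hh P c b s = ∫ w, g.real {t | |t| < |s| * R w} ∂P := by
    intro s hs
    rw [one_sub_hh P c hc b s]
    have hset : (SS c b s)ᶜ = {p : ℝ × W | |p.1| < |s| * R p.2} := by
      ext ⟨t, w⟩
      simp only [SS, mem_compl_iff, mem_ofPred_eq, not_forall, not_le]
      have hs' : 0 < |s| := abs_pos.2 hs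
      have h2 : (|t| < |s| * R w) ↔ |t / s| < R w := by
        rw [abs_div, div_lt_iff₀ hs', mul_comm]
      rw [h2, hR]
      simp only [Finset.lt_sup'_iff, Finset.mem_univ, true_and]
      refine exists_congr fun i => ?_
      rw [lt_div_iff_of_neg (hb i)]
    rw [hset, measureReal_def, Measure.prod_apply_symm (by
      exact measurableSet_lt (by fun_prop) (measurable_const.mul (hRm.comp measurable_snd)))]
    rw [← integral_toReal]
    · rfl
    · have hms : MeasurableSet {p : W × ℝ | |p.2| < |s| * R p.1} :=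
        measurableSet_lt (by fun_prop) (measurable_const.mul (hRm.comp measurable_fst))
      exact (measurable_measure_prodMk_left (ν := g) hms).aemeasurable
    · exact ae_of_all _ fun w => measure_lt_top _ _
  have h2 : Tendsto (fun d : ℕ => ∫ w, (d : ℝ) * g.real {t | |t| < (|u| * R w) / d} ∂P) atTop
      (𝓝 (∫ w, 2 * pdf 0 * max (|u| * R w) 0 ∂P)) := by
    refine tendsto_integral_of_dominated_convergence (fun w => 2 * pdf 0 * |(|u| * R w)|) ?_ ?_ ?_ ?_
    · intro d
      have hms : MeasurableSet {p : W × ℝ | |p.2| < (|u| * R p.1) / d} :=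
        measurableSet_lt (by fun_prop)
          ((measurable_const.mul (hRm.comp measurable_fst)).div_const _)
      have := (measurable_measure_prodMk_left (ν := g) hms).ennreal_toReal
      exact (measurable_const.mul this).aestronglyMeasurable
    · exact ((hRi.const_mul _).abs).const_mul _
    · intro d
      refine ae_of_all _ fun w => ?_
      have h3 := phi_le ((|u| * R w) / d)
      have h4 : 0 ≤ g.real {t | |t| < (|u| * R w) / d} := measureReal_nonneg
      rw [Real.norm_eq_abs, abs_of_nonneg (by positivity)]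
      rcases Nat.eq_zero_or_pos d with rfl | hd
      · have := (pdf_pos 0).le
        simp only [Nat.cast_zero, zero_mul]; positivity
      have hd' : (0 : ℝ) < d := by exact_mod_cast hd
      calc (d : ℝ) * g.real {t | |t| < (|u| * R w) / d} ≤
          d * (2 * pdf 0 * |(|u| * R w) / d|) := by gcongr
        _ = _ := by rw [abs_div (|u| * R w), abs_of_pos hd']; field_simp
    · exact ae_of_all _ fun w => phi_lim _
  have h3 : ∫ w, 2 * pdf 0 * max (|u| * R w) 0 ∂P =
      (∫ w, 2 * pdf 0 * max (R w) 0 ∂P) * |u| := by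
    rw [← integral_mul_const]
    refine integral_congr_ae (ae_of_all _ fun w => ?_)
    have : max (|u| * R w) 0 = |u| * max (R w) 0 := by
      rw [mul_max_of_nonneg _ _ (abs_nonneg u), mul_zero]
    simp only [this]
    ring
  rw [← h3]
  refine h2.congr' ?_
  filter_upwards [eventually_gt_atTop 0] with d hd
  have hd' : (0 : ℝ) < d := by exact_mod_cast hd
  rw [h1 (u / d) (by positivity), ← integral_const_mul]
  refine integral_congr_ae (ae_of_all _ fun w => ?_)
  simp only
  have : |u / (d : ℝ)| * R w = |u| * R w / d := by rw [abs_div, abs_of_pos hd']; ring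
  rw [this]

end Pool.Agent.V11331.SA
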