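import Pool.Agent.V11331.SA.Sym
import Pool.Agent.V11331.SA.Asy2

/-! The solid angle of a Gaussian cone, conditionally on all generators but one. -/

set_option autoImplicit false
set_option linter.unusedSectionVars false
set_option linter.unusedVariables false

open MeasureTheory ProbabilityTheory Filter Topology Set WithLp Matrix
open scoped ENNReal NNReal RealInnerProductSpace

namespace Pool.Agent.V11331.SA

open Pool.Agent.V11331.GC

/-- `ℝ^k`. -/
abbrev V (k : ℕ) : Type := Fin k → ℝ

/-- Gaussian measure on `ℝ^k`. -/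
noncomputable abbrev G (k : ℕ) : Measure (V k) := gam (Fin k)

variable {n : ℕ}

/-- `Fin.cons` as a linear map -/
def cns (p : ℝ × V n) : V (n + 1) := Fin.cons p.1 p.2

lemma cns_mp : MeasurePreserving (cns (n := n)) (g.prod (G n)) (G (n + 1)) := by
  have h := (measurePreserving_piFinSuccAbove (fun _ : Fin (n + 1) => g) 0).symm
  have e1 : G (n + 1) = Measure.pi fun _ : Fin (n + 1) => g := by
    simp only [G, gam, Measure.infinitePi_eq_pi]
  have e2 : G n = Measure.pi fun _ : Fin n => g := by
    simp only [G, gam, Measure.infinitePi_eq_pi]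
  rw [e1, e2]
  convert h using 1
  ext p i
  simp only [cns, MeasurableEquiv.piFinSuccAbove, MeasurableEquiv.symm_mk, MeasurableEquiv.coe_mk,
    Equiv.symm_symm, Fin.insertNthEquiv, Equiv.coe_fn_mk]
  rw [← Fin.insertNth_zero']

/-- the configuration after rotation -/
def cfg (s : ℝ) (y : V n) (A : Matrix (Fin n) (Fin n) ℝ) : Fin (n + 1) → V (n + 1) :=
  Fin.cons (cns (s, y)) (fun i => cns (0, A i))

/-- half of the good set -/
def SP (c : V n → V n) (b : V n) (s : ℝ) : Set (ℝ × V n) :=
  {p | 0 ≤ p.1 / s ∧ ∀ i, |p.1 / s| * b i ≤ c p.2 i}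

lemma mem_cfg {s : ℝ} (hs : s ≠ 0) (y : V n) (A : Matrix (Fin n) (Fin n) ℝ) (hA : A.det ≠ 0)
    (p : ℝ × V n) : cns p ∈ posHull (cfg s y A) ↔
      p ∈ SP (fun w => vecMul w A⁻¹) (vecMul y A⁻¹) s := by
  obtain ⟨t, w⟩ := p
  have hu := isUnit_iff_ne_zero.2 hA
  constructor
  · rintro ⟨lam, h1, h2⟩
    have h3 : t = lam 0 * s := by
      have := congrFun h2 0
      simpa [cns, cfg, Fin.sum_univ_succ, Finset.sum_apply] using this
    have h4 : w = lam 0 • y + vecMul (fun i : Fin n => lam i.succ) A := by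
      ext a
      have := congrFun h2 a.succ
      simpa [cns, cfg, Fin.sum_univ_succ, Finset.sum_apply, vecMul, dotProduct] using this
    have h5 : t / s = lam 0 := by rw [h3]; field_simp
    refine ⟨by rw [h5]; exact h1 0, fun i => ?_⟩
    simp only
    rw [h5, abs_of_nonneg (h1 0), h4, add_vecMul, smul_vecMul, vecMul_vecMul,
      Matrix.mul_nonsing_inv _ hu, vecMul_one]
    simp only [Pi.add_apply, Pi.smul_apply, smul_eq_mul]
    have := h1 i.succ
    linarith
  · rintro ⟨h1, h2⟩
    simp only at h1 h2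
    rw [abs_of_nonneg h1] at h2
    refine ⟨Fin.cons (t / s) (fun i => vecMul w A⁻¹ i - (t / s) * vecMul y A⁻¹ i), ?_, ?_⟩
    · intro i
      refine Fin.cases ?_ (fun i => ?_) i
      · simpa using h1
      · simpa using h2 i
    · have h4 : w = (t / s) • y + vecMul (fun i : Fin n => vecMul w A⁻¹ i -
          (t / s) * vecMul y A⁻¹ i) A := by
        have h5 : (fun i : Fin n => vecMul w A⁻¹ i - (t / s) * vecMul y A⁻¹ i) =
            vecMul w A⁻¹ - (t / s) • vecMul y A⁻¹ := rfl
        rw [h5, sub_vecMul, smul_vecMul, vecMul_vecMul, vecMul_vecMul,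
          Matrix.nonsing_inv_mul _ hu, vecMul_one, vecMul_one]
        abel
      ext a
      refine Fin.cases ?_ (fun a => ?_) a
      · simp [cns, cfg, Fin.sum_univ_succ, Finset.sum_apply]
        field_simp
      · have h6 := congrFun h4 a
        simp only [Pi.add_apply, Pi.smul_apply, smul_eq_mul, vecMul, dotProduct] at h6
        simpa [cns, cfg, Fin.sum_univ_succ, Finset.sum_apply, vecMul, dotProduct] using h6

lemma SP_meas (c : V n → V n) (hc : Measurable c) (b : V n) (s : ℝ) :
    MeasurableSet (SP c b s) := by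
  have : SP c b s = {p : ℝ × V n | 0 ≤ p.1 / s} ∩ SS c b s := by
    ext p; simp [SP, SS]
  rw [this]
  exact (measurableSet_le (by fun_prop) (by fun_prop)).inter (SS_meas c hc b s)

lemma neg_mp : MeasurePreserving (fun p : ℝ × V n => (-p.1, p.2)) (g.prod (G n))
    (g.prod (G n)) := by
  have h1 : MeasurePreserving (fun x : ℝ => -x) g g := by
    refine ⟨by fun_prop, ?_⟩
    rw [gaussianReal_map_neg, neg_zero]
  exact h1.prod (MeasurePreserving.id (G n))

lemma two_SP (c : V n → V n) (hc : Measurable c) (b : V n) {s : ℝ} (hs : s ≠ 0) :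
    2 * (g.prod (G n)).real (SP c b s) = hh (G n) c b s := by
  set μ := g.prod (G n)
  set T : Set (ℝ × V n) := (fun p : ℝ × V n => (-p.1, p.2)) ⁻¹' (SP c b s) with hT
  have h1 : μ.real T = μ.real (SP c b s) := by
    rw [measureReal_def, measureReal_def, hT,
      neg_mp.measure_preimage (SP_meas c hc b s).nullMeasurableSet]
  have h2 : SP c b s ∪ T = SS c b s := by
    ext ⟨t, w⟩
    simp only [mem_union, hT, mem_preimage, SP, SS, mem_ofPred_eq, neg_div, abs_neg,
      Left.nonneg_neg_iff]
    constructor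
    · rintro (⟨_, h⟩ | ⟨_, h⟩) <;> exact h
    · intro h
      rcases le_total 0 (t / s) with h3 | h3
      · exact Or.inl ⟨h3, h⟩
      · exact Or.inr ⟨h3, h⟩
  have h3 : μ.real (SP c b s ∩ T) = 0 := by
    have h4 : SP c b s ∩ T ⊆ ({0} : Set ℝ) ×ˢ (univ : Set (V n)) := by
      rintro ⟨t, w⟩ ⟨h5, h6⟩
      simp only [hT, mem_preimage, SP, mem_ofPred_eq, neg_div, Left.nonneg_neg_iff] at h5 h6
      have h7 : t / s = 0 := le_antisymm h6.1 h5.1
      have h8 : t = 0 := by
        rcases div_eq_zero_iff.1 h7 with h | h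
        · exact h
        · exact absurd h hs
      exact ⟨h8, mem_univ _⟩
    have h5 : μ.real (({0} : Set ℝ) ×ˢ (univ : Set (V n))) = 0 := by
      have h6 : g.real ({0} : Set ℝ) = 0 := by
        rw [g_real]; simp
      rw [measureReal_prod_prod, h6, zero_mul]
    exact le_antisymm (h5 ▸ measureReal_mono h4) measureReal_nonneg
  have h4 := measureReal_union_add_inter (μ := μ) (s := SP c b s) (t := T)
    ((SP_meas c hc b s).preimage (by fun_prop))
  rw [h2, h3, h1] at h4
  unfold hh
  linarith

lemma vm_meas (N : Matrix (Fin n) (Fin n) ℝ) : Measurable fun w : V n => vecMul w N := by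
  refine Continuous.measurable ?_
  refine continuous_pi fun i => ?_
  simp only [vecMul, dotProduct]
  fun_prop

/-- twice the solid angle of the rotated configuration -/
lemma two_angle {s : ℝ} (hs : s ≠ 0) (y : V n) (A : Matrix (Fin n) (Fin n) ℝ) (hA : A.det ≠ 0) :
    2 * (G (n + 1)).real (posHull (cfg s y A)) =
      hh (G n) (fun w => vecMul w A⁻¹) (vecMul y A⁻¹) s := by
  have hemb : MeasurableEmbedding (cns (n := n)) := by
    have : cns (n := n) = (MeasurableEquiv.piFinSuccAbove (fun _ : Fin (n + 1) => ℝ) 0).symm := by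
      ext p i
      simp only [cns, MeasurableEquiv.piFinSuccAbove, MeasurableEquiv.symm_mk,
        MeasurableEquiv.coe_mk, Equiv.symm_symm, Fin.insertNthEquiv, Equiv.coe_fn_mk]
      rw [← Fin.insertNth_zero']
    rw [this]
    exact MeasurableEquiv.measurableEmbedding _
  have h1 : (G (n + 1)).real (posHull (cfg s y A)) =
      (g.prod (G n)).real (cns ⁻¹' posHull (cfg s y A)) := by
    rw [measureReal_def, measureReal_def, cns_mp.measure_preimage_emb hemb]
  have h2 : cns ⁻¹' posHull (cfg s y A) = SP (fun w => vecMul w A⁻¹) (vecMul y A⁻¹) s := by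
    ext p
    exact mem_cfg hs y A hA p
  rw [h1, h2, two_SP _ (vm_meas _) _ hs]

/-- Existence of the rotation. -/
lemma exists_rot (x : Fin n → V (n + 1)) : ∃ R : V (n + 1) ≃ₗ[ℝ] V (n + 1),
    MeasurePreserving R (G (n + 1)) (G (n + 1)) ∧ ∀ i, R (x i) 0 = 0 := by
  classical
  set X : Fin n → EuclideanSpace ℝ (Fin (n + 1)) := fun i => toLp 2 (x i) with hX
  set U := Submodule.span ℝ (range X) with hU
  have hne : Uᗮ ≠ ⊥ := by
    intro h
    rw [Submodule.orthogonal_eq_bot_iff] at h
    have h1 : Module.finrank ℝ U ≤ n := by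
      have := finrank_range_le_card (R := ℝ) X
      rw [Fintype.card_fin] at this
      exact this
    rw [h, finrank_top] at h1
    simp at h1
  obtain ⟨v, hv, hv0⟩ := Submodule.exists_mem_ne_zero_of_ne_bot hne
  set ν := ‖v‖⁻¹ • v with hν
  have hνn : ‖ν‖ = 1 := by
    rw [hν, norm_smul, norm_inv, norm_norm, inv_mul_cancel₀ (norm_ne_zero_iff.2 hv0)]
  set e : EuclideanSpace ℝ (Fin (n + 1)) := EuclideanSpace.single 0 1 with he
  have hen : ‖e‖ = 1 := by simp [he]
  set L := (Submodule.span ℝ {e - ν})ᗮ.reflection with hL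
  have hLe : L e = ν := Submodule.reflection_sub (by rw [hen, hνn])
  have hLL : ∀ z, L (L z) = z := fun z => Submodule.reflection_reflection _ z
  have hperp : ∀ i, ⟪L (X i), e⟫ = 0 := by
    intro i
    have h1 : ⟪L (X i), e⟫ = ⟪X i, ν⟫ := by
      rw [← hLe]
      conv_lhs => rw [← hLL e]
      rw [L.inner_map_map]
    rw [h1, hν, inner_smul_right]
    have h2 : ⟪X i, v⟫ = 0 := (Submodule.mem_orthogonal U v).1 hv (X i)
      (Submodule.subset_span ⟨i, rfl⟩)
    rw [h2, mul_zero]
  let R : V (n + 1) ≃ₗ[ℝ] V (n + 1) :=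
    ((WithLp.linearEquiv 2 ℝ (V (n + 1))).symm.trans L.toLinearEquiv).trans
      (WithLp.linearEquiv 2 ℝ (V (n + 1)))
  have hR : ∀ z, R z = ofLp (L (toLp 2 z)) := fun z => rfl
  refine ⟨R, ⟨?_, ?_⟩, fun i => ?_⟩
  · exact (R.toLinearMap.continuous_of_finiteDimensional).measurable
  · have h1 := gam_toLp (Fin (n + 1))
    have h2 := stdGaussian_map L
    have h3 : (R : V (n + 1) → V (n + 1)) = ofLp ∘ (L ∘ (toLp 2)) := by
      ext z; rw [hR]; rfl
    have hLm : Measurable L := L.continuous.measurable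
    rw [h3, ← Measure.map_map (by fun_prop) (hLm.comp (by fun_prop)),
      ← Measure.map_map hLm (by fun_prop), h1, h2, ← h1,
      Measure.map_map (by fun_prop) (by fun_prop)]
    have h4 : (ofLp ∘ (toLp 2) : V (n + 1) → V (n + 1)) = id := rfl
    rw [h4, Measure.map_id]
  · have h1 := hperp i
    rw [hR]
    have h2 : ⟪L (X i), e⟫ = (L (X i)) 0 := by
      rw [he, EuclideanSpace.inner_single_right]
      simp
    rw [h2] at h1
    exact h1

lemma posHull_map {ι : Type} [Fintype ι] {k : ℕ} (R : V k ≃ₗ[ℝ] V k) (x : ι → V k) :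
    posHull (fun i => R (x i)) = R.symm ⁻¹' posHull x := by
  ext z
  simp only [posHull, mem_ofPred_eq, mem_preimage]
  refine exists_congr fun lam => and_congr_right fun _ => ?_
  constructor
  · intro h
    rw [h, map_sum]
    simp
  · intro h
    have : z = R (R.symm z) := by simp
    rw [this, h, map_sum]
    simp

lemma angle_rot {ι : Type} [Fintype ι] {k : ℕ} (R : V k ≃ₗ[ℝ] V k)
    (hR : MeasurePreserving R (G k) (G k)) (x : ι → V k) :
    (G k).real (posHull (fun i => R (x i))) = (G k).real (posHull x) := by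
  have hemb : MeasurableEmbedding R := by
    exact (R.toContinuousLinearEquiv.toHomeomorph).measurableEmbedding
  rw [measureReal_def, measureReal_def, ← hR.measure_preimage_emb hemb, posHull_map]
  congr 2
  ext z
  simp

end Pool.Agent.V11331.SA
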