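import Pool.Agent.V11331.SA.Cone

/-! The limit for a fixed hyperplane. -/

set_option autoImplicit false
set_option linter.unusedSectionVars false
set_option linter.unusedVariables false

open MeasureTheory ProbabilityTheory Filter Topology Set WithLp Matrix
open scoped ENNReal NNReal RealInnerProductSpace

namespace Pool.Agent.V11331.SA

open Pool.Agent.V11331.GC

variable {n : ℕ}

/-- the function `hh` for the matrix `N` -/
noncomputable def hN (N : Matrix (Fin n) (Fin n) ℝ) (y : V n) (s : ℝ) : ℝ :=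
  hh (G n) (fun w => vecMul w N) (vecMul y N) s

lemma hN_meas (N : Matrix (Fin n) (Fin n) ℝ) : Measurable fun p : V n × ℝ => hN N p.1 p.2 := by
  have h1 := hh_meas (G n) (fun w => vecMul w N) (vm_meas N)
  have h2 : Measurable fun p : V n × ℝ => (p.2, vecMul p.1 N) :=
    measurable_snd.prodMk ((vm_meas N).comp measurable_fst)
  have h3 := h1.comp h2
  unfold hN
  exact h3

lemma hN_nonneg (N : Matrix (Fin n) (Fin n) ℝ) (y : V n) (s : ℝ) : 0 ≤ hN N y s :=
  measureReal_nonneg

lemma hN_le_one (N : Matrix (Fin n) (Fin n) ℝ) (y : V n) (s : ℝ) : hN N y s ≤ 1 :=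
  measureReal_le_one

lemma F_eq (x : Fin n → V (n + 1)) (hx : LinearIndependent ℝ x) :
    ∃ A : Matrix (Fin n) (Fin n) ℝ, A.det ≠ 0 ∧ ∀ d : ℕ,
      ∫ v, (2 * (G (n + 1)).real (posHull (Fin.cons v x : Fin (n + 1) → V (n + 1)))) ^ d
        ∂(G (n + 1)) = ∫ y, ∫ s, hN A⁻¹ y s ^ d ∂g ∂(G n) := by
  obtain ⟨R, hR, hR0⟩ := exists_rot x
  set A : Matrix (Fin n) (Fin n) ℝ := fun i => Fin.tail (R (x i)) with hA
  have hRx : ∀ i, R (x i) = cns (0, A i) := by
    intro i
    have h1 := Fin.cons_self_tail (R (x i))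
    rw [hR0 i] at h1
    exact h1.symm
  have hdet : A.det ≠ 0 := by
    have h1 : LinearIndependent ℝ (fun i => R (x i)) :=
      hx.map' R.toLinearMap R.ker
    let J : V n →ₗ[ℝ] V (n + 1) :=
      { toFun := fun w => cns (0, w)
        map_add' := by
          intro a b
          ext i
          refine Fin.cases ?_ (fun i => ?_) i <;> simp [cns]
        map_smul' := by
          intro a b
          ext i
          refine Fin.cases ?_ (fun i => ?_) i <;> simp [cns] }
    have h2 : (fun i => R (x i)) = J ∘ A := by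
      ext1 i
      exact hRx i
    rw [h2] at h1
    have h3 : LinearIndependent ℝ A := LinearIndependent.of_comp J h1
    have h4 : IsUnit A := Matrix.linearIndependent_rows_iff_isUnit.1 h3
    exact ((Matrix.isUnit_iff_isUnit_det A).1 h4).ne_zero
  refine ⟨A, hdet, fun d => ?_⟩
  set φ : V (n + 1) → ℝ := fun v =>
    (2 * (G (n + 1)).real (posHull (Fin.cons v (fun i => R (x i)) : Fin (n + 1) → V (n + 1)))) ^ d
    with hφ
  have h1 : ∀ v, (2 * (G (n + 1)).real
      (posHull (Fin.cons v x : Fin (n + 1) → V (n + 1)))) ^ d = φ (R v) := by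
    intro v
    rw [hφ]
    simp only
    rw [← angle_rot R hR (Fin.cons v x : Fin (n + 1) → V (n + 1))]
    congr 4
    ext1 i
    refine Fin.cases ?_ (fun i => ?_) i
    · simp
    · simp
  simp_rw [h1]
  rw [hR.integral_comp ((R.toContinuousLinearEquiv.toHomeomorph).measurableEmbedding) φ,
    ← cns_mp.integral_comp (by
      have : cns (n := n) = (MeasurableEquiv.piFinSuccAbove (fun _ : Fin (n + 1) => ℝ) 0).symm := by
        ext p i
        simp only [cns, MeasurableEquiv.piFinSuccAbove, MeasurableEquiv.symm_mk,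
          MeasurableEquiv.coe_mk, Equiv.symm_symm, Fin.insertNthEquiv, Equiv.coe_fn_mk]
        rw [← Fin.insertNth_zero']
      rw [this]
      exact MeasurableEquiv.measurableEmbedding _) φ]
  have hs : ∀ᵐ p ∂(g.prod (G n)), p.1 ≠ 0 := by
    have h0 : ∀ᵐ s ∂g, s ≠ 0 := by
      have h3 : ∀ᵐ x ∂(volume : Measure ℝ), x ≠ 0 := by
        rw [ae_iff]; simp
      exact (gaussianReal_absolutelyContinuous 0 one_ne_zero).ae_le h3
    exact Measure.quasiMeasurePreserving_fst.ae h0
  have h2 : ∫ p, φ (cns p) ∂(g.prod (G n)) = ∫ p, hN A⁻¹ p.2 p.1 ^ d ∂(g.prod (G n)) := by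
    refine integral_congr_ae ?_
    filter_upwards [hs] with p hp
    rw [hφ]
    simp only
    have h3 : (Fin.cons (cns p) (fun i => R (x i)) : Fin (n + 1) → V (n + 1)) =
        cfg p.1 p.2 A := by
      unfold cfg
      congr 1
      ext1 i
      exact hRx i
    rw [h3, two_angle hp p.2 A hdet]
    rfl
  rw [h2, integral_prod_symm]
  have hm : Measurable fun p : ℝ × V n => hN A⁻¹ p.2 p.1 ^ d :=
    ((hN_meas A⁻¹).comp (measurable_snd.prodMk measurable_fst)).pow_const d
  refine Integrable.of_bound hm.aestronglyMeasurable 1 (ae_of_all _ fun p => ?_)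
  rw [Real.norm_eq_abs, abs_of_nonneg (pow_nonneg (hN_nonneg _ _ _) d)]
  exact pow_le_one₀ (hN_nonneg _ _ _) (hN_le_one _ _ _)

/-- the law of a coordinate -/
lemma coord (N : Matrix (Fin n) (Fin n) ℝ) (hN : N.det ≠ 0) (i : Fin n) :
    ∃ σ : ℝ, 0 < σ ∧ ∃ ξ : V n → ℝ, Measurable ξ ∧ (G n).map ξ = g ∧
      ∀ w, vecMul w N i = σ * ξ w := by
  set z : EuclideanSpace ℝ (Fin n) := toLp 2 (fun k => N k i) with hz
  have hz0 : z ≠ 0 := by
    intro h
    apply hN
    refine Matrix.det_eq_zero_of_column_eq_zero i fun k => ?_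
    have := congrArg (fun v : EuclideanSpace ℝ (Fin n) => v k) h
    simpa [hz] using this
  have hzn : 0 < ‖z‖ := norm_pos_iff.2 hz0
  refine ⟨‖z‖, hzn, fun w => ∑ k, w k * (‖z‖⁻¹ • z) k, by fun_prop, ?_, fun w => ?_⟩
  · rw [G, gam_lin (‖z‖⁻¹ • z), norm_smul, norm_inv, norm_norm, inv_mul_cancel₀ hzn.ne']
    simp
  · simp only [vecMul, dotProduct, PiLp.smul_apply, smul_eq_mul]
    rw [Finset.mul_sum]
    refine Finset.sum_congr rfl fun k _ => ?_
    have : z k = N k i := rfl
    rw [this]
    field_simp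

/-- The universal constant. -/
noncomputable def eta : ℝ := g.real {x : ℝ | x < -1} * (2 * pdf 1)

lemma eta_pos : 0 < eta := by
  unfold eta
  have h1 : 0 < g.real {x : ℝ | x < -1} := by
    refine lt_of_le_of_ne measureReal_nonneg fun h => ?_
    have h2 : g {x : ℝ | x < -1} = 0 := by
      rwa [eq_comm, measureReal_eq_zero_iff] at h
    have h3 := gaussianReal_absolutelyContinuous' 0 one_ne_zero h2
    have h4 : {x : ℝ | x < -1} = Iio (-1) := rfl
    rw [h4, Real.volume_Iio] at h3
    exact ENNReal.top_ne_zero h3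
  have := pdf_pos 1
  positivity

lemma half_g : g.real {x : ℝ | 0 ≤ x} = 1 / 2 := by
  have h1 : MeasurePreserving (fun x : ℝ => -x) g g := by
    refine ⟨by fun_prop, ?_⟩
    rw [gaussianReal_map_neg, neg_zero]
  have hm : MeasurableSet {x : ℝ | 0 ≤ x} := measurableSet_le (by fun_prop) (by fun_prop)
  have h2 : g.real {x : ℝ | x ≤ 0} = g.real {x : ℝ | 0 ≤ x} := by
    rw [measureReal_def, measureReal_def, ← h1.measure_preimage hm.nullMeasurableSet]
    congr 2
    ext x; simp
  have h3 := measureReal_union_add_inter (μ := g) (s := {x : ℝ | 0 ≤ x}) (t := {x : ℝ | x ≤ 0})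
    (measurableSet_le (by fun_prop) (by fun_prop))
  have h4 : {x : ℝ | 0 ≤ x} ∪ {x : ℝ | x ≤ 0} = univ := by
    ext x; simp [le_total]
  have h5 : {x : ℝ | 0 ≤ x} ∩ {x : ℝ | x ≤ 0} = {0} := by
    ext x; simp only [mem_inter_iff, mem_ofPred_eq, mem_singleton_iff]
    constructor
    · rintro ⟨a, b⟩; exact le_antisymm b a
    · rintro rfl; exact ⟨le_rfl, le_rfl⟩
  have h6 : g.real ({0} : Set ℝ) = 0 := by rw [g_real]; simp
  rw [h4, h5, h6, h2] at h3
  simp only [probReal_univ] at h3
  linarith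

lemma int_id_g : Integrable (fun x : ℝ => x) g :=
  (memLp_id_gaussianReal (μ := 0) (v := 1) 1).integrable le_rfl

/-- The universal bound. -/
noncomputable def Cb : ℝ := (1 + 2 * pdf 0) / eta * (1 + ∫ x, |x| ∂g)

lemma vol_ac : (volume : Measure (V n)) ≪ G n := by
  unfold G
  rw [gam_density]
  refine withDensity_absolutelyContinuous' (gd_meas _).aemeasurable (ae_of_all _ fun x => ?_)
  unfold gd
  refine mul_ne_zero ?_ ?_ <;> exact (ENNReal.ofReal_pos.2 (by positivity)).ne'

lemma ell [NeZero n] (A : Matrix (Fin n) (Fin n) ℝ) (hA : A.det ≠ 0) :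
    (∃ ℓ : ℝ, 0 < ℓ ∧ Tendsto (fun d : ℕ => (d : ℝ) * ∫ y, ∫ s, hN A⁻¹ y s ^ d ∂g ∂(G n)) atTop
      (𝓝 ℓ)) ∧ ∀ d : ℕ, (d : ℝ) * ∫ y, ∫ s, hN A⁻¹ y s ^ d ∂g ∂(G n) ≤ Cb := by
  set N := A⁻¹ with hNdef
  have hu := isUnit_iff_ne_zero.2 hA
  have hdet : N.det ≠ 0 := by
    rw [hNdef, Matrix.det_nonsing_inv, Ring.inverse_eq_inv']
    exact inv_ne_zero hA
  obtain ⟨σ, hσ, ξ, hξm, hξl, hξ⟩ := coord N hdet 0
  have hcm : Measurable fun w : V n => vecMul w N := vm_meas N
  have hD : Dom (G n) (fun w : V n => vecMul w N) eta σ 0 := by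
    refine ⟨hσ, eta_pos, ?_⟩
    have h1 : (G n).real {w : V n | vecMul w N 0 < -σ} = g.real {x : ℝ | x < -1} := by
      have hm : MeasurableSet {x : ℝ | x < -1} := measurableSet_lt (by fun_prop) (by fun_prop)
      rw [← hξl, map_measureReal_apply hξm hm]
      congr 1
      ext w
      simp only [mem_ofPred_eq, mem_preimage, hξ]
      constructor
      · intro h; nlinarith
      · intro h; nlinarith
    rw [h1]; rfl
  have hbound : ∀ (d : ℕ) (y : V n), (d : ℝ) * ∫ s, hN N y s ^ d ∂g ≤
      (1 + 2 * pdf 0) / eta * (1 + |ξ y|) := by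
    intro d y
    have := bound (G n) (fun w : V n => vecMul w N) hcm (vecMul y N) hD d
    have h2 : |vecMul y N 0| / σ = |ξ y| := by
      rw [hξ, abs_mul, abs_of_pos hσ]; field_simp
    rw [h2] at this
    exact this
  have hnn : ∀ (d : ℕ) (y : V n), 0 ≤ (d : ℝ) * ∫ s, hN N y s ^ d ∂g := fun d y =>
    mul_nonneg (Nat.cast_nonneg d) (integral_nonneg fun s => pow_nonneg (hN_nonneg _ _ _) d)
  have hξi : Integrable (fun y => |ξ y|) (G n) := by
    have h1 : Integrable (fun x : ℝ => |x|) ((G n).map ξ) := by rw [hξl]; exact int_id_g.abs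
    exact h1.comp_measurable hξm
  have hbi : Integrable (fun y => (1 + 2 * pdf 0) / eta * (1 + |ξ y|)) (G n) :=
    ((integrable_const _).add hξi).const_mul _
  have hmeas : ∀ d : ℕ, AEStronglyMeasurable (fun y => (d : ℝ) * ∫ s, hN N y s ^ d ∂g) (G n) := by
    intro d
    have h1 : StronglyMeasurable fun p : V n × ℝ => hN N p.1 p.2 ^ d :=
      ((hN_meas N).pow_const d).stronglyMeasurable
    exact (h1.integral_prod_right (ν := g)).aestronglyMeasurable.const_mul _
  have hlim : ∀ y : V n, ∃ L : ℝ, 0 ≤ L ∧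
      Tendsto (fun d : ℕ => (d : ℝ) * ∫ s, hN N y s ^ d ∂g) atTop (𝓝 L) ∧
      ((∀ i, vecMul y N i < 0) → 0 < L) := by
    intro y
    by_cases hy : ∀ i, vecMul y N i < 0
    · obtain ⟨κ, hκ⟩ := slope_lim (G n) (fun w : V n => vecMul w N) hcm (vecMul y N) hy (by
        intro i
        obtain ⟨σ', hσ', ξ', hξm', hξl', hξ'⟩ := coord N hdet i
        simp_rw [hξ']
        have h1 : Integrable (fun x : ℝ => x) ((G n).map ξ') := by rw [hξl']; exact int_id_g
        exact (h1.comp_measurable hξm').const_mul _)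
      obtain ⟨L, hL, hL2⟩ := full_lim (G n) (fun w : V n => vecMul w N) hcm (vecMul y N) hD κ hκ
      exact ⟨L, hL.le, hL2, fun _ => hL⟩
    · refine ⟨0, le_rfl, ?_, fun h => absurd h hy⟩
      push Not at hy
      obtain ⟨i, hi⟩ := hy
      refine half_lim (G n) (fun w : V n => vecMul w N) (vecMul y N) i hi ?_
      obtain ⟨σ', hσ', ξ', hξm', hξl', hξ'⟩ := coord N hdet i
      have h1 : (G n).real {w : V n | 0 ≤ vecMul w N i} = g.real {x : ℝ | 0 ≤ x} := by
        have hm : MeasurableSet {x : ℝ | 0 ≤ x} := measurableSet_le (by fun_prop) (by fun_prop)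
        rw [← hξl', map_measureReal_apply hξm' hm]
        congr 1
        ext w
        simp only [mem_ofPred_eq, mem_preimage, hξ']
        exact mul_nonneg_iff_of_pos_left hσ'
      rw [h1, half_g]
  choose L hL0 hL1 hL2 using hlim
  have key := tendsto_integral_of_dominated_convergence
    (fun y => (1 + 2 * pdf 0) / eta * (1 + |ξ y|)) hmeas hbi
    (fun d => ae_of_all _ fun y => by
      rw [Real.norm_eq_abs, abs_of_nonneg (hnn d y)]; exact hbound d y)
    (ae_of_all _ hL1)
  have hLi : Integrable L (G n) := by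
    refine hbi.mono' (aestronglyMeasurable_of_tendsto_ae atTop hmeas (ae_of_all _ hL1))
      (ae_of_all _ fun y => ?_)
    rw [Real.norm_eq_abs, abs_of_nonneg (hL0 y)]
    exact le_of_tendsto' (hL1 y) fun d => hbound d y
  have hpos : 0 < ∫ y, L y ∂(G n) := by
    rw [integral_pos_iff_support_of_nonneg (fun y => hL0 y) hLi]
    set U : Set (V n) := {y | ∀ i, vecMul y N i < 0} with hU
    have hsub : U ⊆ Function.support L := fun y hy => (hL2 y hy).ne'
    refine lt_of_lt_of_le ?_ (measure_mono hsub)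
    have hcont : Continuous fun y : V n => vecMul y N := by
      refine continuous_pi fun i => ?_
      simp only [vecMul, dotProduct]
      fun_prop
    have hopen : IsOpen U := by
      have : U = ⋂ i, {y : V n | vecMul y N i < 0} := by ext y; simp [hU]
      rw [this]
      exact isOpen_iInter_of_finite fun i =>
        isOpen_lt ((continuous_apply i).comp hcont) continuous_const
    have hne : U.Nonempty := by
      refine ⟨vecMul (fun _ => (-1 : ℝ)) A, fun i => ?_⟩
      rw [hNdef, vecMul_vecMul, Matrix.mul_nonsing_inv _ hu, vecMul_one]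
      norm_num
    have h1 : 0 < volume U := hopen.measure_pos volume hne
    rw [pos_iff_ne_zero] at h1 ⊢
    exact fun h => h1 (vol_ac h)
  constructor
  · refine ⟨_, hpos, ?_⟩
    refine key.congr fun d => ?_
    rw [integral_const_mul]
  · intro d
    rw [← integral_const_mul]
    calc ∫ y, (d : ℝ) * ∫ s, hN N y s ^ d ∂g ∂(G n) ≤
        ∫ y, (1 + 2 * pdf 0) / eta * (1 + |ξ y|) ∂(G n) :=
          integral_mono_of_nonneg (ae_of_all _ (hnn d)) hbi (ae_of_all _ (hbound d))
      _ = Cb := by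
          rw [integral_const_mul, integral_add (integrable_const _) hξi]
          unfold Cb
          congr 2
          · simp
          · rw [← hξl, integral_map hξm.aemeasurable]
            exact (continuous_abs.measurable).aestronglyMeasurable

end Pool.Agent.V11331.SA
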