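import Pool.Agent.V11331.SA.Cone2

/-! The asymptotics of the moments. -/

set_option autoImplicit false
set_option linter.unusedSectionVars false
set_option linter.unusedVariables false

open MeasureTheory ProbabilityTheory Filter Topology Set WithLp Matrix
open scoped ENNReal NNReal RealInnerProductSpace

namespace Pool.Agent.V11331.SA

open Pool.Agent.V11331.GC

variable {n : ℕ}

/-- i.i.d. Gaussian vectors -/
noncomputable abbrev GG (m k : ℕ) : Measure (Fin m → V k) := Measure.pi fun _ : Fin m => G k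

lemma curry_mp (k : ℕ) : (gam (Fin k × Fin k)).map (MeasurableEquiv.curry (Fin k) (Fin k) ℝ) =
    GG k k := by
  have h1 : (gam (Fin k × Fin k)).map (MeasurableEquiv.curry (Fin k) (Fin k) ℝ) =
      Measure.infinitePi fun _ : Fin k => gam (Fin k) :=
    Measure.infinitePi_map_curry (ι := Fin k) (κ := Fin k) (fun _ _ => gaussianReal 0 1)
  rw [h1, Measure.infinitePi_eq_pi]

lemma mom_eq (k m : ℕ) : mom (Fin k) m = ∫⁻ x, (G k (posHull x)) ^ m ∂(GG k k) := by
  rw [← curry_mp, lintegral_map_equiv]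
  rfl

lemma det_ae' (k : ℕ) : ∀ᵐ x ∂(GG k k), (Matrix.of x).det ≠ 0 := by
  rw [← curry_mp]
  have hm : MeasurableSet {x : Fin k → V k | (Matrix.of x).det ≠ 0} := by
    have hc : Continuous fun x : Fin k → V k => (Matrix.of x).det := by
      refine Continuous.matrix_det ?_
      exact continuous_id
    exact (hc.measurable (measurableSet_singleton (0 : ℝ))).compl
  rw [ae_map_iff (MeasurableEquiv.measurable _).aemeasurable hm]
  filter_upwards [det_ae (K := Fin k)] with X hX
  exact hX

/-- a measurable version of the solid angle -/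
noncomputable def Q (k : ℕ) (x : Fin k → V k) : ℝ≥0∞ :=
  G k {z | ∀ i, 0 ≤ vecMul z (Matrix.of x)⁻¹ i}

lemma Q_meas (k : ℕ) : Measurable (Q k) := by
  have h1 : ∀ i, Measurable fun p : (Fin k → V k) × V k => vecMul p.2 (Matrix.of p.1)⁻¹ i := by
    intro i
    have hdet : Measurable fun p : (Fin k → V k) × V k => (Matrix.of p.1).det := by
      have hc : Continuous fun x : Fin k → V k => (Matrix.of x).det := by
        refine Continuous.matrix_det ?_
        exact continuous_id
      exact hc.measurable.comp measurable_fst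
    have hadj : ∀ a b, Measurable fun p : (Fin k → V k) × V k => (Matrix.of p.1).adjugate a b := by
      intro a b
      have hc : Continuous fun x : Fin k → V k => (Matrix.of x).adjugate := by
        refine Continuous.matrix_adjugate ?_
        exact continuous_id
      have hc2 : Continuous fun x : Fin k → V k => (Matrix.of x).adjugate a b := by
        have := (continuous_apply b).comp ((continuous_apply a).comp hc)
        exact this
      exact hc2.measurable.comp measurable_fst
    simp only [vecMul, dotProduct, Matrix.inv_def, Ring.inverse_eq_inv', Matrix.smul_apply,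
      smul_eq_mul]
    refine Finset.measurable_sum _ fun a _ => ?_
    exact ((measurable_pi_apply a).comp measurable_snd).mul (hdet.inv.mul (hadj a i))
  have h2 : MeasurableSet {p : (Fin k → V k) × V k | ∀ i, 0 ≤ vecMul p.2 (Matrix.of p.1)⁻¹ i} := by
    have : {p : (Fin k → V k) × V k | ∀ i, 0 ≤ vecMul p.2 (Matrix.of p.1)⁻¹ i} =
        ⋂ i, {p : (Fin k → V k) × V k | 0 ≤ vecMul p.2 (Matrix.of p.1)⁻¹ i} := by
      ext p; simp
    rw [this]
    exact MeasurableSet.iInter fun i => measurableSet_le measurable_const (h1 i)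
  exact measurable_measure_prodMk_left (ν := G k) h2

lemma Q_ae (k : ℕ) : ∀ᵐ x ∂(GG k k), G k (posHull x) = Q k x := by
  filter_upwards [det_ae' k] with x hx
  unfold Q
  congr 1
  ext z
  have := posHull_iff (fun p : Fin k × Fin k => x p.1 p.2) hx z
  exact this

/-- the solid angle -/
noncomputable def qq (k : ℕ) (x : Fin k → V k) : ℝ := (G k).real (posHull x)

lemma qq_aem (k : ℕ) : AEMeasurable (qq k) (GG k k) := by
  refine ⟨fun x => (Q k x).toReal, (Q_meas k).ennreal_toReal, ?_⟩
  filter_upwards [Q_ae k] with x hx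
  unfold qq
  rw [measureReal_def, hx]

lemma qq_nonneg (k : ℕ) (x : Fin k → V k) : 0 ≤ qq k x := measureReal_nonneg
lemma qq_le_one (k : ℕ) (x : Fin k → V k) : qq k x ≤ 1 := measureReal_le_one

lemma mom_real (k m : ℕ) : (mom (Fin k) m).toReal = ∫ x, qq k x ^ m ∂(GG k k) := by
  rw [mom_eq]
  have h1 : ∀ x : Fin k → V k, qq k x ^ m = ((G k (posHull x)) ^ m).toReal := by
    intro x; rw [ENNReal.toReal_pow]; rfl
  simp_rw [h1]
  rw [integral_toReal]
  · refine AEMeasurable.pow_const ?_ m
    exact ⟨Q k, Q_meas k, Q_ae k⟩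
  · exact ae_of_all _ fun x => ENNReal.pow_lt_top (measure_lt_top _ _)

lemma cons_mp (n k : ℕ) : MeasurePreserving
    (fun p : (Fin n → V k) × V k => (Fin.cons p.2 p.1 : Fin (n + 1) → V k))
    ((GG n k).prod (G k)) (GG (n + 1) k) := by
  have h := (measurePreserving_piFinSuccAbove (fun _ : Fin (n + 1) => G k) 0).symm
  have h2 := h.comp (Measure.measurePreserving_swap (μ := GG n k) (ν := G k))
  convert h2 using 1
  ext p i j
  simp only [Function.comp_apply, MeasurableEquiv.piFinSuccAbove, MeasurableEquiv.symm_mk,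
    MeasurableEquiv.coe_mk, Equiv.symm_symm, Fin.insertNthEquiv, Equiv.coe_fn_mk, Prod.swap]
  rw [← Fin.insertNth_zero']

theorem mom_lim (n : ℕ) [NeZero n] : ∃ c : ℝ, 0 < c ∧
    Tendsto (fun d : ℕ => (2 : ℝ) ^ d * d * (mom (Fin (n + 1)) d).toReal) atTop (𝓝 c) := by
  set f : ℕ → (Fin n → V (n + 1)) × V (n + 1) → ℝ := fun d p =>
    (2 * qq (n + 1) (Fin.cons p.2 p.1 : Fin (n + 1) → V (n + 1))) ^ d with hf
  have hmp := cons_mp n (n + 1)
  have hfae : ∀ d, AEStronglyMeasurable (f d) ((GG n (n + 1)).prod (G (n + 1))) := by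
    intro d
    have h1 : AEStronglyMeasurable (fun x : Fin (n + 1) → V (n + 1) => (2 * qq (n + 1) x) ^ d)
        (GG (n + 1) (n + 1)) :=
      (((qq_aem (n + 1)).const_mul 2).pow_const d).aestronglyMeasurable
    exact h1.comp_measurePreserving hmp
  have hfi : ∀ d, Integrable (f d) ((GG n (n + 1)).prod (G (n + 1))) := by
    intro d
    refine Integrable.of_bound (hfae d) (2 ^ d) (ae_of_all _ fun p => ?_)
    have h1 := qq_nonneg (n + 1) (Fin.cons p.2 p.1 : Fin (n + 1) → V (n + 1))
    have h2 := qq_le_one (n + 1) (Fin.cons p.2 p.1 : Fin (n + 1) → V (n + 1))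
    rw [Real.norm_eq_abs, abs_of_nonneg (pow_nonneg (by linarith) d)]
    exact pow_le_pow_left₀ (by linarith) (by linarith) d
  have hmom : ∀ d : ℕ, (2 : ℝ) ^ d * d * (mom (Fin (n + 1)) d).toReal =
      ∫ x, (d : ℝ) * ∫ v, f d (x, v) ∂(G (n + 1)) ∂(GG n (n + 1)) := by
    intro d
    rw [mom_real, ← hmp.map_eq, integral_map hmp.aemeasurable (by
      rw [hmp.map_eq]
      exact ((qq_aem (n + 1)).pow_const d).aestronglyMeasurable)]
    rw [integral_const_mul, ← integral_prod _ (hfi d), mul_comm ((2 : ℝ) ^ d), mul_assoc,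
      ← integral_const_mul]
    congr 1
    refine integral_congr_ae (ae_of_all _ fun p => ?_)
    simp only [hf]
    rw [mul_pow]
  have hli : ∀ᵐ x ∂(GG n (n + 1)), LinearIndependent ℝ x := by
    have h1 := hmp.quasiMeasurePreserving.ae (det_ae' (n + 1))
    filter_upwards [Measure.ae_ae_of_ae_prod h1] with x hx
    obtain ⟨v, hv⟩ := hx.exists
    have h2 : IsUnit (Matrix.of (Fin.cons v x : Fin (n + 1) → V (n + 1))) := by
      rw [Matrix.isUnit_iff_isUnit_det]
      exact isUnit_iff_ne_zero.2 hv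
    have h3 : LinearIndependent ℝ (Fin.cons v x : Fin (n + 1) → V (n + 1)) :=
      Matrix.linearIndependent_rows_iff_isUnit.2 h2
    have h4 := h3.comp Fin.succ (Fin.succ_injective n)
    exact h4
  have hx : ∀ x : Fin n → V (n + 1), ∃ ℓ : ℝ, LinearIndependent ℝ x →
      (0 < ℓ ∧ Tendsto (fun d : ℕ => (d : ℝ) * ∫ v, f d (x, v) ∂(G (n + 1))) atTop (𝓝 ℓ)) ∧
      ∀ d : ℕ, (d : ℝ) * ∫ v, f d (x, v) ∂(G (n + 1)) ≤ Cb := by
    intro x
    by_cases hx : LinearIndependent ℝ x
    · obtain ⟨A, hA, hAe⟩ := F_eq x hx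
      obtain ⟨⟨ℓ, hℓ, hℓ2⟩, hb⟩ := ell A hA
      refine ⟨ℓ, fun _ => ⟨⟨hℓ, ?_⟩, ?_⟩⟩
      · refine hℓ2.congr fun d => ?_
        rw [← hAe d]
        rfl
      · intro d
        have := hb d
        rw [← hAe d] at this
        exact this
    · exact ⟨0, fun h => absurd h hx⟩
  choose ℓ hℓ using hx
  have hnn : ∀ (d : ℕ) (x : Fin n → V (n + 1)), 0 ≤ (d : ℝ) * ∫ v, f d (x, v) ∂(G (n + 1)) := by
    intro d x
    refine mul_nonneg (Nat.cast_nonneg d) (integral_nonneg fun v => ?_)
    refine pow_nonneg ?_ d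
    have h1 := qq_nonneg (n + 1) (Fin.cons v x : Fin (n + 1) → V (n + 1))
    simp only
    linarith
  have hmeas : ∀ d : ℕ, AEStronglyMeasurable
      (fun x => (d : ℝ) * ∫ v, f d (x, v) ∂(G (n + 1))) (GG n (n + 1)) := fun d =>
    ((hfae d).integral_prod_right').const_mul _
  have hbd : ∀ d : ℕ, ∀ᵐ x ∂(GG n (n + 1)),
      ‖(d : ℝ) * ∫ v, f d (x, v) ∂(G (n + 1))‖ ≤ Cb := by
    intro d
    filter_upwards [hli] with x hx
    rw [Real.norm_eq_abs, abs_of_nonneg (hnn d x)]
    exact (hℓ x hx).2 d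
  have hlim : ∀ᵐ x ∂(GG n (n + 1)), Tendsto (fun d : ℕ =>
      (d : ℝ) * ∫ v, f d (x, v) ∂(G (n + 1))) atTop (𝓝 (ℓ x)) := by
    filter_upwards [hli] with x hx
    exact (hℓ x hx).1.2
  have key := tendsto_integral_of_dominated_convergence (fun _ => Cb) hmeas
    (integrable_const _) hbd hlim
  refine ⟨∫ x, ℓ x ∂(GG n (n + 1)), ?_, ?_⟩
  · have hi : Integrable ℓ (GG n (n + 1)) := by
      refine (integrable_const Cb).mono' (aestronglyMeasurable_of_tendsto_ae atTop hmeas hlim) ?_
      filter_upwards [hli] with x hx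
      rw [Real.norm_eq_abs, abs_of_pos (hℓ x hx).1.1]
      exact le_of_tendsto' (hℓ x hx).1.2 fun d => (hℓ x hx).2 d
    have hp : ∀ᵐ x ∂(GG n (n + 1)), 0 < ℓ x := hli.mono fun x hx => (hℓ x hx).1.1
    rw [integral_pos_iff_support_of_nonneg_ae (hp.mono fun x hx => hx.le) hi]
    have h1 : ∀ᵐ x ∂(GG n (n + 1)), x ∈ Function.support ℓ := hp.mono fun x hx => hx.ne'
    have h2 : GG n (n + 1) (Function.support ℓ) = 1 := prob_compl_eq_zero_iff₀ (by
      exact hi.aestronglyMeasurable.nullMeasurableSet_support) |>.1 h1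
    rw [h2]
    exact zero_lt_one
  · exact key.congr fun d => (hmom d).symm

end Pool.Agent.V11331.SA
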