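import Mathlib

/-! Convergence of moments implies vague convergence on `(0,∞)`. -/

set_option autoImplicit false
set_option linter.unusedSectionVars false
set_option linter.unusedVariables false

open MeasureTheory ProbabilityTheory Filter Topology Set
open scoped ENNReal NNReal CompactlySupported

namespace Pool.Agent.V11331.SA

/-- The open half line. -/
abbrev XX : Type := Set.Ioi (0 : ℝ)

/-- extension by zero -/
noncomputable def ext0 (f : XX → ℝ) (x : ℝ) : ℝ := if h : x ∈ Set.Ioi (0 : ℝ) then f ⟨x, h⟩ else 0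

/-- restriction of a multiple of a measure to the half line -/
noncomputable def vmu (t : ℝ) (ρ : Measure ℝ) : Measure XX :=
  (ENNReal.ofReal t • ρ).comap Subtype.val

lemma ext0_coe (f : XX → ℝ) (x : XX) : ext0 f x = f x := by
  unfold ext0
  exact dif_pos x.2

lemma ext0_neg (f : XX → ℝ) {x : ℝ} (h : ¬ 0 < x) : ext0 f x = 0 := by
  unfold ext0
  exact dif_neg h

lemma int_vmu {t : ℝ} (ht : 0 ≤ t) (ρ : Measure ℝ) (f : XX → ℝ) :
    ∫ x, f x ∂(vmu t ρ) = t * ∫ x, x ^ 2 * (ext0 f x / x ^ 2) ∂ρ := by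
  unfold vmu
  have h1 := integral_subtype_comap (μ := ENNReal.ofReal t • ρ) (s := Set.Ioi (0 : ℝ))
    measurableSet_Ioi (ext0 f)
  simp_rw [ext0_coe] at h1
  have h2 : ∫ x in Set.Ioi (0 : ℝ), ext0 f x ∂ρ = ∫ x, ext0 f x ∂ρ :=
    setIntegral_eq_integral_of_forall_compl_eq_zero (fun x hx => ext0_neg f hx)
  rw [h1, Measure.restrict_smul, integral_smul_measure, ENNReal.toReal_ofReal ht, smul_eq_mul, h2]
  congr 1
  refine integral_congr_ae (ae_of_all _ fun x => ?_)
  by_cases hx : 0 < x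
  · simp only; field_simp
  · simp only [ext0_neg f hx]; simp

lemma ext0_cont (f : XX → ℝ) (hf : Continuous f) (hs : HasCompactSupport f) :
    Continuous fun x : ℝ => ext0 f x / x ^ 2 := by
  set K : Set ℝ := Subtype.val '' tsupport f with hK
  have hKc : IsCompact K := IsCompact.image hs continuous_subtype_val
  have hKo : IsOpen Kᶜ := hKc.isClosed.isOpen_compl
  have hzero : ∀ x ∈ Kᶜ, ext0 f x = 0 := by
    intro x hx
    by_cases h : 0 < x
    · by_contra h1
      rw [ext0_coe f ⟨x, h⟩] at h1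
      apply hx
      exact ⟨⟨x, h⟩, subset_tsupport _ h1, rfl⟩
    · exact ext0_neg f h
  have hon : ContinuousOn (fun x : ℝ => ext0 f x / x ^ 2) (Ioi 0) := by
    rw [continuousOn_iff_continuous_domRestrict]
    have : (Ioi (0 : ℝ)).domRestrict (fun x : ℝ => ext0 f x / x ^ 2) =
        fun x : XX => f x / (x : ℝ) ^ 2 := by
      ext x
      simp only [Set.domRestrict_apply]
      rw [ext0_coe]
    rw [this]
    refine hf.div (by fun_prop) fun x => ?_
    have := x.2
    exact pow_ne_zero _ (ne_of_gt this)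
  rw [continuous_iff_continuousAt]
  intro x
  by_cases hx : 0 < x
  · exact hon.continuousAt (Ioi_mem_nhds hx)
  · have hxK : x ∈ Kᶜ := by
      rintro ⟨y, _, rfl⟩
      exact hx y.2
    have h1 : (fun x : ℝ => ext0 f x / x ^ 2) =ᶠ[𝓝 x] fun _ => 0 := by
      filter_upwards [hKo.mem_nhds hxK] with z hz
      rw [hzero z hz, zero_div]
    exact ContinuousAt.congr (f := fun _ : ℝ => (0 : ℝ)) continuousAt_const h1.symm

lemma conv_of_approx (a : ℕ → ℝ) (h : ∀ ε > 0, ∃ b : ℕ → ℝ, (∃ l, Tendsto b atTop (𝓝 l)) ∧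
    ∀ d, |a d - b d| ≤ ε) : ∃ l, Tendsto a atTop (𝓝 l) := by
  refine cauchySeq_tendsto_of_complete ?_
  rw [Metric.cauchySeq_iff']
  intro ε hε
  obtain ⟨b, ⟨l, hl⟩, hb⟩ := h (ε / 4) (by positivity)
  obtain ⟨N, hN⟩ := Metric.cauchySeq_iff'.1 hl.cauchySeq (ε / 4) (by positivity)
  refine ⟨N, fun m hm => ?_⟩
  have h1 := hN m hm
  rw [Real.dist_eq] at h1 ⊢
  have h2 := hb m
  have h3 := hb N
  rw [abs_lt] at h1 ⊢
  rw [abs_le] at h2 h3
  constructor <;> linarith [h1.1, h1.2, h2.1, h2.2, h3.1, h3.2]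

section

variable (T : ℕ → ℝ) (ρ : ℕ → Measure ℝ) [∀ d, IsProbabilityMeasure (ρ d)]
  (hT : ∀ d, 0 ≤ T d) (hρ : ∀ d, ∀ᵐ x ∂(ρ d), x ∈ Icc (0 : ℝ) 1)
  (hmom : ∀ k : ℕ, ∃ c : ℝ, 0 < c ∧ Tendsto (fun d => T d * ∫ x, x ^ (k + 2) ∂(ρ d)) atTop (𝓝 c))

include hρ in
lemma int_cont (d : ℕ) (f : ℝ → ℝ) (hf : Continuous f) : Integrable f (ρ d) := by
  obtain ⟨C, hC⟩ := isCompact_Icc.exists_bound_of_continuousOn (s := Icc (0 : ℝ) 1)
    hf.continuousOn
  exact Integrable.of_bound hf.aestronglyMeasurable C ((hρ d).mono fun x hx => hC x hx)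

include hT hρ hmom in
lemma S1 (f : ℝ → ℝ) (hf : Continuous f) :
    ∃ l, Tendsto (fun d => T d * ∫ x, x ^ 2 * f x ∂(ρ d)) atTop (𝓝 l) := by
  obtain ⟨c2, hc2, h2⟩ := hmom 0
  simp only [zero_add] at h2
  obtain ⟨M, hM⟩ := h2.bddAbove_range
  have hM' : ∀ d, T d * ∫ x, x ^ 2 ∂(ρ d) ≤ M := fun d => hM ⟨d, rfl⟩
  have hM0 : 0 ≤ M := le_trans (mul_nonneg (hT 0) (integral_nonneg fun x => sq_nonneg x)) (hM' 0)
  refine conv_of_approx _ fun ε hε => ?_
  obtain ⟨p, hp⟩ := exists_polynomial_near_of_continuousOn 0 1 f hf.continuousOn (ε / (M + 1))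
    (by positivity)
  refine ⟨fun d => T d * ∫ x, x ^ 2 * p.eval x ∂(ρ d), ?_, fun d => ?_⟩
  · choose c hc using hmom
    refine ⟨∑ i ∈ Finset.range (p.natDegree + 1), p.coeff i * c i, ?_⟩
    have h1 : ∀ d, T d * ∫ x, x ^ 2 * p.eval x ∂(ρ d) =
        ∑ i ∈ Finset.range (p.natDegree + 1), p.coeff i * (T d * ∫ x, x ^ (i + 2) ∂(ρ d)) := by
      intro d
      have h3 : ∀ x : ℝ, x ^ 2 * p.eval x =
          ∑ i ∈ Finset.range (p.natDegree + 1), p.coeff i * x ^ (i + 2) := by
        intro x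
        rw [Polynomial.eval_eq_sum_range, Finset.mul_sum]
        refine Finset.sum_congr rfl fun i _ => by ring
      simp_rw [h3]
      rw [integral_finsetSum _ fun i _ => int_cont ρ hρ d _ (by fun_prop), Finset.mul_sum]
      refine Finset.sum_congr rfl fun i _ => ?_
      rw [integral_const_mul]
      ring
    simp_rw [h1]
    exact tendsto_finsetSum _ fun i _ => (hc i).2.const_mul _
  · have hpi : Continuous fun x : ℝ => x ^ 2 * p.eval x := by
      have := p.continuous
      fun_prop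
    rw [← mul_sub, ← integral_sub (int_cont ρ hρ d _ (by fun_prop)) (int_cont ρ hρ d _ hpi),
      abs_mul, abs_of_nonneg (hT d)]
    have h3 : |∫ x, (x ^ 2 * f x - x ^ 2 * p.eval x) ∂(ρ d)| ≤
        ∫ x, x ^ 2 * (ε / (M + 1)) ∂(ρ d) := by
      refine (abs_integral_le_integral_abs).trans ?_
      refine integral_mono_ae ?_ (int_cont ρ hρ d _ (by fun_prop)) ?_
      · exact (int_cont ρ hρ d _ (by
          have h4 : Continuous fun x : ℝ => x ^ 2 * f x := by fun_prop
          exact h4.sub hpi)).abs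
      · filter_upwards [hρ d] with x hx
        rw [← mul_sub, abs_mul, abs_of_nonneg (sq_nonneg x)]
        have := hp x hx
        rw [abs_sub_comm] at this
        gcongr
    calc T d * |∫ x, (x ^ 2 * f x - x ^ 2 * p.eval x) ∂(ρ d)| ≤
        T d * ∫ x, x ^ 2 * (ε / (M + 1)) ∂(ρ d) := by
          exact mul_le_mul_of_nonneg_left h3 (hT d)
      _ = (T d * ∫ x, x ^ 2 ∂(ρ d)) * (ε / (M + 1)) := by rw [integral_mul_const]; ring
      _ ≤ M * (ε / (M + 1)) := by gcongr; exact hM' d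
      _ ≤ ε := by
          rw [mul_div_assoc', div_le_iff₀ (by positivity)]
          nlinarith

include hT hρ hmom in
lemma lim_cc (f : XX → ℝ) (hf : Continuous f) (hs : HasCompactSupport f) :
    ∃ l, Tendsto (fun d => ∫ x, f x ∂(vmu (T d) (ρ d))) atTop (𝓝 l) := by
  obtain ⟨l, hl⟩ := S1 T ρ hT hρ hmom _ (ext0_cont f hf hs)
  refine ⟨l, hl.congr fun d => ?_⟩
  rw [int_vmu (hT d)]

lemma cc_int (d : ℕ) (f : XX → ℝ) (hf : Continuous f) (hs : HasCompactSupport f) :
    Integrable f (vmu (T d) (ρ d)) := by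
  have : IsFiniteMeasure (ENNReal.ofReal (T d) • ρ d) := by
    constructor
    rw [Measure.smul_apply, smul_eq_mul, measure_univ, mul_one]
    exact ENNReal.ofReal_lt_top
  have h2 : IsFiniteMeasure (vmu (T d) (ρ d)) := by
    constructor
    unfold vmu
    rw [(MeasurableEmbedding.subtype_coe measurableSet_Ioi).comap_apply]
    exact measure_lt_top _ _
  exact hf.integrable_of_hasCompactSupport hs

include hT hρ hmom in
theorem vague : ∃ μ : Measure XX, IsLocallyFiniteMeasure μ ∧ μ ≠ 0 ∧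
    ∀ f : XX → ℝ, Continuous f → HasCompactSupport f →
      Tendsto (fun d => ∫ x, f x ∂(vmu (T d) (ρ d))) atTop (𝓝 (∫ x, f x ∂μ)) := by
  have hlim : ∀ f : C_c(XX, ℝ), ∃ l, Tendsto (fun d => ∫ x, f x ∂(vmu (T d) (ρ d))) atTop (𝓝 l) :=
    fun f => lim_cc T ρ hT hρ hmom f f.continuous f.hasCompactSupport
  choose Λ hΛ using hlim
  have hint : ∀ (d : ℕ) (f : C_c(XX, ℝ)), Integrable f (vmu (T d) (ρ d)) := fun d f =>
    cc_int T ρ d f f.continuous f.hasCompactSupport
  let L : C_c(XX, ℝ) →ₗ[ℝ] ℝ :=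
    { toFun := Λ
      map_add' := by
        intro f h
        refine tendsto_nhds_unique (hΛ (f + h)) ?_
        refine ((hΛ f).add (hΛ h)).congr fun d => ?_
        rw [← integral_add (hint d f) (hint d h)]
        rfl
      map_smul' := by
        intro a f
        refine tendsto_nhds_unique (hΛ (a • f)) ?_
        refine ((hΛ f).const_mul a).congr fun d => ?_
        rw [← integral_const_mul]
        rfl }
  have hLpos : ∀ f : C_c(XX, ℝ), 0 ≤ f → 0 ≤ L f := by
    intro f hf
    refine ge_of_tendsto' (hΛ f) fun d => integral_nonneg fun x => hf x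
  let Lp : C_c(XX, ℝ) →ₚ[ℝ] ℝ := PositiveLinearMap.mk₀ L hLpos
  have hLp : ∀ f, Lp f = Λ f := fun f => rfl
  have hX : LocallyCompactSpace XX := isOpen_Ioi.locallyCompactSpace
  refine ⟨RealRMK.rieszMeasure Lp, ?_, ?_, ?_⟩
  · infer_instance
  · intro h0
    obtain ⟨c2, hc2, h2⟩ := hmom 0
    obtain ⟨c3, hc3, h3⟩ := hmom 1
    set ε := c3 / (2 * c2) with hε
    have hεp : 0 < ε := by positivity
    let φ : ℝ → ℝ := fun x => x ^ 2 * (max (x - ε) 0 * max 0 (min 1 (2 - x)))
    have hφc : Continuous φ := by fun_prop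
    have hφ0 : ∀ x, 0 < x → 0 ≤ φ x := by
      intro x hx
      have h1 : 0 ≤ max (x - ε) 0 := le_max_right _ _
      have h2 : 0 ≤ max 0 (min 1 (2 - x)) := le_max_left _ _
      positivity
    have hφs : ∀ x, φ x ≠ 0 → x ∈ Icc ε 2 := by
      intro x hx
      constructor
      · by_contra h
        apply hx
        have : max (x - ε) 0 = 0 := max_eq_right (by linarith)
        simp only [φ, this]; ring
      · by_contra h
        apply hx
        have : max 0 (min 1 (2 - x)) = 0 := max_eq_left (by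
          refine (min_le_right _ _).trans ?_; linarith)
        simp only [φ, this]; ring
    let f : XX → ℝ := fun x => φ x
    have hfc : Continuous f := hφc.comp continuous_subtype_val
    have hfs : HasCompactSupport f := by
      refine HasCompactSupport.intro (K := Subtype.val ⁻¹' Icc ε 2) ?_ ?_
      · refine Topology.IsInducing.isCompact_preimage' Topology.IsInducing.subtypeVal
          isCompact_Icc ?_
        rw [Subtype.range_coe]
        intro x hx
        exact lt_of_lt_of_le hεp hx.1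
      · intro x hx
        by_contra h
        exact hx (hφs x h)
    let F : C_c(XX, ℝ) := ⟨⟨f, hfc⟩, hfs⟩
    have hF := hΛ F
    have h4 : ∫ x, F x ∂(RealRMK.rieszMeasure Lp) = Λ F := by
      rw [RealRMK.integral_rieszMeasure, hLp]
    rw [h0, integral_zero_measure] at h4
    rw [← h4] at hF
    have h5 : Tendsto (fun d => T d * ∫ x, x ^ (1 + 2) ∂(ρ d) -
        ε * (T d * ∫ x, x ^ (0 + 2) ∂(ρ d))) atTop (𝓝 (c3 - ε * c2)) := h3.sub (h2.const_mul ε)
    have h6 : c3 - ε * c2 ≤ 0 := by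
      refine le_of_tendsto_of_tendsto' h5 hF fun d => ?_
      have h7 : ∫ x, F x ∂(vmu (T d) (ρ d)) = T d * ∫ x, φ x ∂(ρ d) := by
        rw [int_vmu (hT d)]
        congr 1
        refine integral_congr_ae ?_
        filter_upwards [hρ d] with x hx
        rcases hx.1.lt_or_eq with h | h
        · have : ext0 F x = φ x := ext0_coe F ⟨x, h⟩
          rw [this]; field_simp
        · rw [← h]; simp [φ]
      rw [h7]
      have h8 : T d * ∫ x, x ^ (1 + 2) ∂(ρ d) - ε * (T d * ∫ x, x ^ (0 + 2) ∂(ρ d)) =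
          T d * ∫ x, (x ^ (1 + 2) - ε * x ^ (0 + 2)) ∂(ρ d) := by
        rw [integral_sub (int_cont ρ hρ d _ (by fun_prop)) (int_cont ρ hρ d _ (by fun_prop)),
          integral_const_mul]
        ring
      rw [h8]
      refine mul_le_mul_of_nonneg_left ?_ (hT d)
      refine integral_mono_ae (int_cont ρ hρ d _ (by fun_prop)) (int_cont ρ hρ d _ hφc) ?_
      filter_upwards [hρ d] with x hx
      have h9 : max 0 (min 1 (2 - x)) = 1 := by
        rw [min_eq_left (by linarith [hx.2])]; simp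
      simp only [φ]
      rw [h9, mul_one]
      have h10 : x - ε ≤ max (x - ε) 0 := le_max_left _ _
      calc x ^ (1 + 2) - ε * x ^ (0 + 2) = x ^ 2 * (x - ε) := by ring
        _ ≤ _ := by gcongr
    have h11 : ε * c2 = c3 / 2 := by rw [hε]; field_simp
    linarith
  · intro f hf hs
    have h1 := hΛ ⟨⟨f, hf⟩, hs⟩
    have h2 := RealRMK.integral_rieszMeasure Lp ⟨⟨f, hf⟩, hs⟩
    rw [hLp] at h2
    rw [← h2] at h1
    exact h1

end

end Pool.Agent.V11331.SA
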