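import Pool.Agent.V11331.SA.Cone3
import Pool.Agent.V11331.SA.Mom
import Pool.Agent.H988R2.Gauss

/-! From the uniform distribution on the sphere to the Gaussian law. -/

set_option autoImplicit false
set_option linter.unusedSectionVars false
set_option linter.unusedVariables false

open MeasureTheory Measure ProbabilityTheory Filter Topology Set WithLp Matrix
open scoped ENNReal NNReal RealInnerProductSpace

namespace Pool.Agent.V11331.SA

open Pool.Agent.V11331.GC

/-- Euclidean space. -/
abbrev E (d : ℕ) : Type := EuclideanSpace ℝ (Fin d)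

/-- The unit sphere. -/
abbrev Sp (d : ℕ) : Type := Metric.sphere (0 : E d) 1

/-- The uniform distribution on the unit sphere. -/
noncomputable def unif (d : ℕ) : Measure (Sp d) :=
  ((volume : Measure (E d)).toSphere univ)⁻¹ • (volume : Measure (E d)).toSphere

/-- Polar coordinates. -/
lemma polar {n : ℕ} (hn : 0 < n) (f : E n → ℝ≥0∞) (hf : Measurable f) :
    ∫⁻ x, f x = ∫⁻ w : Sp n, (∫⁻ r in Ioi (0 : ℝ), ENNReal.ofReal (r ^ (n - 1)) *
      f (r • (w : E n))) ∂((volume : Measure (E n)).toSphere) := by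
  have : Nonempty (Fin n) := ⟨⟨0, hn⟩⟩
  have : Nontrivial (E n) := inferInstance
  have hfr : Module.finrank ℝ (E n) = n := by simp
  have h0 := (volume : Measure (E n)).measurePreserving_homeomorphUnitSphereProd
  rw [hfr] at h0
  calc ∫⁻ x, f x = ∫⁻ x in ({0}ᶜ : Set (E n)), f x := by
        rw [restrict_compl_singleton]
    _ = ∫⁻ x : ({(0 : E n)}ᶜ : Set (E n)), f x ∂((volume : Measure (E n)).comap (↑)) := by
        rw [lintegral_subtype_comap (measurableSet_singleton _).compl]
    _ = ∫⁻ p, f ((p.2 : ℝ) • (p.1 : E n))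
          ∂((volume : Measure (E n)).toSphere.prod (volumeIoiPow (n - 1))) := by
        rw [← h0.lintegral_comp_emb (Homeomorph.measurableEmbedding _)]
        apply lintegral_congr
        intro x
        congr 1
        have hx : ‖(x : E n)‖ ≠ 0 := norm_ne_zero_iff.2 x.2
        simp [smul_smul, hx]
    _ = ∫⁻ w, ∫⁻ r, f ((r : ℝ) • (w : E n)) ∂(volumeIoiPow (n - 1))
          ∂((volume : Measure (E n)).toSphere) := by
        rw [lintegral_prod]
        apply Measurable.aemeasurable
        exact hf.comp ((measurable_subtype_coe.comp measurable_snd).smul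
          (measurable_subtype_coe.comp measurable_fst))
    _ = ∫⁻ w : Sp n, (∫⁻ r in Ioi (0 : ℝ), ENNReal.ofReal (r ^ (n - 1)) * f (r • (w : E n)))
          ∂((volume : Measure (E n)).toSphere) := by
        apply lintegral_congr
        intro w
        rw [volumeIoiPow, lintegral_withDensity_eq_lintegral_mul]
        · simp only [Pi.mul_apply]
          rw [lintegral_subtype_comap measurableSet_Ioi
            (fun r : ℝ => ENNReal.ofReal (r ^ (n - 1)) * f (r • (w : E n)))]
        · exact (measurable_subtype_coe.pow_const _).ennreal_ofReal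
        · exact hf.comp (measurable_subtype_coe.smul measurable_const)

/-- normalisation of a vector -/
noncomputable def nrm {d : ℕ} (x : V d) : V d := ‖(toLp 2 x : E d)‖⁻¹ • x

lemma nrm_meas {d : ℕ} : Measurable (nrm (d := d)) := by
  unfold nrm
  fun_prop

/-- the point of the sphere as a plain vector -/
def vl {d : ℕ} (u : Sp d) : V d := ofLp (u : E d)

lemma vl_meas {d : ℕ} : Measurable (vl (d := d)) := by
  unfold vl
  fun_prop

lemma gauss_polar (d : ℕ) (hd : 0 < d) : ∃ K : ℝ≥0∞, ∀ F : V d → ℝ≥0∞, Measurable F →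
    ∫⁻ x, F (nrm x) ∂(G d) = K * ∫⁻ w : Sp d, F (vl w) ∂((volume : Measure (E d)).toSphere) := by
  set γ : ℝ → ℝ≥0∞ := fun r => ENNReal.ofReal (((Real.sqrt (2 * Real.pi))⁻¹) ^ (Fintype.card (Fin d)) *
    Real.exp (-r ^ 2 / 2)) with hγ
  refine ⟨∫⁻ r in Ioi (0 : ℝ), ENNReal.ofReal (r ^ (d - 1)) * γ r, fun F hF => ?_⟩
  have h1 : ∫⁻ x, F (nrm x) ∂(G d) =
      ∫⁻ z, F (ofLp (‖z‖⁻¹ • z)) ∂(stdGaussian (EuclideanSpace ℝ (Fin d))) := by
    rw [← gam_toLp (Fin d), lintegral_map (by fun_prop) (by fun_prop)]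
    rfl
  have hm2 : Measurable fun z : E d => F (ofLp (‖z‖⁻¹ • z)) := by fun_prop
  have hFv : Measurable fun w : Sp d => F (vl w) := hF.comp vl_meas
  rw [h1, Pool.Agent.H988R2.stdGaussian_eq, lintegral_withDensity_eq_lintegral_mul _
    (Pool.Agent.H988R2.continuous_gdens (Fin d)).measurable.ennreal_ofReal hm2,
    polar hd _ ((Pool.Agent.H988R2.continuous_gdens (Fin d)).measurable.ennreal_ofReal.mul hm2),
    ← lintegral_const_mul _ hFv]
  refine lintegral_congr fun w => ?_
  have hw : ‖(w : E d)‖ = 1 := by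
    have := w.2
    rwa [mem_sphere_zero_iff_norm] at this
  rw [← lintegral_mul_const _ (by fun_prop)]
  refine setLIntegral_congr_fun measurableSet_Ioi fun r hr => ?_
  have hr' : (0 : ℝ) < r := hr
  have hn : ‖r • (w : E d)‖ = r := by rw [norm_smul, hw, mul_one, Real.norm_of_nonneg hr'.le]
  simp only [Pi.mul_apply]
  rw [hn, smul_smul, inv_mul_cancel₀ hr'.ne', one_smul]
  unfold Pool.Agent.H988R2.gdens
  rw [hn]
  simp only [hγ, vl]
  ring

lemma gauss_unif (d : ℕ) (hd : 0 < d) : (unif d).map vl = (G d).map nrm := by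
  obtain ⟨K, hK⟩ := gauss_polar d hd
  have h1 := hK (fun _ => 1) measurable_const
  simp only [lintegral_const, one_mul, measure_univ] at h1
  have hK' : K = ((volume : Measure (E d)).toSphere univ)⁻¹ :=
    ENNReal.eq_inv_of_mul_eq_one_left h1.symm
  ext s hs
  rw [map_apply nrm_meas hs, map_apply vl_meas hs]
  have h2 := hK (s.indicator 1) (measurable_one.indicator hs)
  have h3 : ∫⁻ x, s.indicator (1 : V d → ℝ≥0∞) (nrm x) ∂(G d) = G d (nrm ⁻¹' s) := by
    rw [← lintegral_indicator_one (nrm_meas hs)]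
    rfl
  have h4 : ∫⁻ w : Sp d, s.indicator (1 : V d → ℝ≥0∞) (vl w)
      ∂((volume : Measure (E d)).toSphere) = (volume : Measure (E d)).toSphere (vl ⁻¹' s) := by
    rw [← lintegral_indicator_one (vl_meas hs)]
    rfl
  rw [h3, h4, hK'] at h2
  rw [h2]
  rfl

lemma unif_prob (d : ℕ) (hd : 0 < d) : IsProbabilityMeasure (unif d) := by
  have h1 : (unif d).map vl univ = 1 := by
    rw [gauss_unif d hd, map_apply nrm_meas MeasurableSet.univ]
    simp
  rw [map_apply vl_meas MeasurableSet.univ] at h1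
  exact ⟨h1⟩

/-- The measurable solid angle, for a Gaussian vector. -/
noncomputable def RR (d : ℕ) (x : Fin d → V d) : ℝ := (Q d x).toReal

lemma RR_meas (d : ℕ) : Measurable (RR d) := (Q_meas d).ennreal_toReal

lemma nrm_cone {d : ℕ} (M : Matrix (Fin d) (Fin d) ℝ) (z : V d) :
    (∀ i, 0 ≤ vecMul (nrm z) M i) ↔ ∀ i, 0 ≤ vecMul z M i := by
  by_cases hz : z = 0
  · subst hz
    simp [nrm]
  · have h1 : 0 < ‖(toLp 2 z : E d)‖⁻¹ := by
      rw [inv_pos, norm_pos_iff]
      intro h
      apply hz
      have := congrArg ofLp h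
      simpa using this
    refine forall_congr' fun i => ?_
    unfold nrm
    rw [smul_vecMul, Pi.smul_apply, smul_eq_mul]
    exact mul_nonneg_iff_of_pos_left h1

lemma RR_nrm {d : ℕ} (x : Fin d → V d) (hx : (Matrix.of x).det ≠ 0) :
    RR d (fun i => nrm (x i)) = RR d x := by
  have hx0 : ∀ i, 0 < ‖(toLp 2 (x i) : E d)‖ := by
    intro i
    rw [norm_pos_iff]
    intro h
    apply hx
    refine Matrix.det_eq_zero_of_row_eq_zero i fun j => ?_
    have := congrArg (fun v : E d => v j) h
    simpa using this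
  set a : Fin d → ℝ := fun i => ‖(toLp 2 (x i) : E d)‖ with ha
  have h1 : Matrix.of (fun i => nrm (x i)) = Matrix.diagonal (fun i => (a i)⁻¹) * Matrix.of x := by
    ext i j
    rw [Matrix.diagonal_mul]
    rfl
  have hu := isUnit_iff_ne_zero.2 hx
  have h2 : (Matrix.of (fun i => nrm (x i)))⁻¹ = (Matrix.of x)⁻¹ * Matrix.diagonal a := by
    refine Matrix.inv_eq_right_inv ?_
    rw [h1, Matrix.mul_assoc, ← Matrix.mul_assoc (Matrix.of x), Matrix.mul_nonsing_inv _ hu,
      Matrix.one_mul, Matrix.diagonal_mul_diagonal]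
    ext i j
    rw [Matrix.diagonal_apply, Matrix.one_apply]
    by_cases hij : i = j
    · rw [if_pos hij, if_pos hij, inv_mul_cancel₀ (hx0 i).ne']
    · rw [if_neg hij, if_neg hij]
  unfold RR Q
  congr 2
  ext z
  simp only [mem_ofPred_eq]
  refine forall_congr' fun i => ?_
  rw [h2, ← vecMul_vecMul, Matrix.vecMul_diagonal]
  exact mul_nonneg_iff_of_pos_right (hx0 i)

/-- The solid angle of a cone. -/
noncomputable def solidAngle (d : ℕ) (C : Set (E d)) : ℝ := (unif d).real {u | (u : E d) ∈ C}

/-- The random solid angle as a function of the points on the sphere. -/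
noncomputable def alpha (d : ℕ) (u : Fin d → Sp d) : ℝ :=
  solidAngle d (posHull fun i => (u i : E d))

lemma alpha_eq {d : ℕ} (hd : 0 < d) (u : Fin d → Sp d)
    (hu : (Matrix.of fun i => vl (u i)).det ≠ 0) : alpha d u = RR d (fun i => vl (u i)) := by
  set M := (Matrix.of fun i => vl (u i)) with hM
  have hm : MeasurableSet {z : V d | ∀ i, 0 ≤ vecMul z M⁻¹ i} := by
    have : {z : V d | ∀ i, 0 ≤ vecMul z M⁻¹ i} = ⋂ i, {z : V d | 0 ≤ vecMul z M⁻¹ i} := by
      ext z; simp
    rw [this]
    exact MeasurableSet.iInter fun i => measurableSet_le measurable_const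
      ((measurable_pi_apply i).comp (vm_meas M⁻¹))
  have h1 : {v : Sp d | (v : E d) ∈ posHull fun i => (u i : E d)} =
      vl ⁻¹' {z : V d | ∀ i, 0 ≤ vecMul z M⁻¹ i} := by
    ext v
    have h2 := posHull_iff (fun p : Fin d × Fin d => vl (u p.1) p.2) hu (vl v)
    simp only [mem_ofPred_eq, mem_preimage]
    refine Iff.trans ?_ h2
    unfold posHull
    simp only [mem_ofPred_eq]
    refine exists_congr fun lam => and_congr_right fun _ => ?_
    constructor
    · intro h
      have := congrArg ofLp h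
      simp only [WithLp.ofLp_sum, WithLp.ofLp_smul] at this
      exact this
    · intro h
      have := congrArg (toLp 2) h
      simp only [WithLp.toLp_sum, WithLp.toLp_smul] at this
      exact this
  unfold alpha solidAngle RR Q
  rw [h1, measureReal_def, ← map_apply vl_meas hm, gauss_unif d hd, map_apply nrm_meas hm]
  congr 2
  ext z
  exact nrm_cone M⁻¹ z

/-- The law of the random solid angle. -/
noncomputable def law (d : ℕ) : Measure ℝ := (Measure.pi fun _ : Fin d => unif d).map (alpha d)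

lemma pi_push {d : ℕ} (hd : 0 < d) : (Measure.pi fun _ : Fin d => unif d).map
    (fun u i => vl (u i)) = (GG d d).map (fun x i => nrm (x i)) := by
  have := unif_prob d hd
  have h1 : ∀ i : Fin d, IsProbabilityMeasure ((unif d).map vl) := fun _ =>
    isProbabilityMeasure_map vl_meas.aemeasurable
  have h2 : ∀ i : Fin d, IsProbabilityMeasure ((G d).map (nrm (d := d))) := fun _ =>
    isProbabilityMeasure_map nrm_meas.aemeasurable
  rw [Measure.pi_map_pi (fun _ => vl_meas.aemeasurable),
    Measure.pi_map_pi (fun _ => nrm_meas.aemeasurable)]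
  congr 1
  ext1 i
  exact gauss_unif d hd

lemma meas_nn {d : ℕ} : Measurable fun (x : Fin d → V d) i => nrm (x i) :=
  measurable_pi_iff.2 fun i => nrm_meas.comp (measurable_pi_apply i)

lemma meas_vv {d : ℕ} : Measurable fun (u : Fin d → Sp d) i => vl (u i) :=
  measurable_pi_iff.2 fun i => vl_meas.comp (measurable_pi_apply i)

lemma det_sph {d : ℕ} (hd : 0 < d) : ∀ᵐ u ∂(Measure.pi fun _ : Fin d => unif d),
    (Matrix.of fun i => vl (u i)).det ≠ 0 := by
  have hm : MeasurableSet {x : Fin d → V d | (Matrix.of x).det ≠ 0} := by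
    have hc : Continuous fun x : Fin d → V d => (Matrix.of x).det := by
      refine Continuous.matrix_det ?_
      exact continuous_id
    exact (hc.measurable (measurableSet_singleton (0 : ℝ))).compl
  have h1 : ∀ᵐ x ∂((Measure.pi fun _ : Fin d => unif d).map (fun u i => vl (u i))),
      (Matrix.of x).det ≠ 0 := by
    rw [pi_push hd, ae_map_iff meas_nn.aemeasurable hm]
    filter_upwards [det_ae' d] with x hx
    have h2 : Matrix.of (fun i => nrm (x i)) =
        Matrix.diagonal (fun i => ‖(toLp 2 (x i) : E d)‖⁻¹) * Matrix.of x := by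
      ext i j
      rw [Matrix.diagonal_mul]
      rfl
    rw [h2, Matrix.det_mul, Matrix.det_diagonal]
    refine mul_ne_zero (Finset.prod_ne_zero_iff.2 fun i _ => inv_ne_zero ?_) hx
    rw [Ne, norm_eq_zero]
    intro h
    apply hx
    refine Matrix.det_eq_zero_of_row_eq_zero i fun j => ?_
    have := congrArg (fun v : E d => v j) h
    simpa using this
  exact (ae_map_iff meas_vv.aemeasurable hm).1 h1

theorem law_eq {d : ℕ} (hd : 0 < d) : law d = (GG d d).map (RR d) := by
  have h1 : alpha d =ᵐ[Measure.pi fun _ : Fin d => unif d] fun u => RR d (fun i => vl (u i)) := by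
    filter_upwards [det_sph hd] with u hu
    exact alpha_eq hd u hu
  unfold law
  rw [Measure.map_congr h1]
  have h2 : (fun u : Fin d → Sp d => RR d (fun i => vl (u i))) = RR d ∘ (fun u i => vl (u i)) := rfl
  rw [h2, ← Measure.map_map (RR_meas d) meas_vv, pi_push hd, Measure.map_map (RR_meas d) meas_nn]
  refine Measure.map_congr ?_
  filter_upwards [det_ae' d] with x hx
  exact RR_nrm x hx

theorem law_prob {d : ℕ} (hd : 0 < d) : IsProbabilityMeasure (law d) := by
  rw [law_eq hd]
  exact isProbabilityMeasure_map (RR_meas d).aemeasurable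

theorem law_supp {d : ℕ} (hd : 0 < d) : ∀ᵐ x ∂(law d), x ∈ Icc (0 : ℝ) 1 := by
  rw [law_eq hd]
  refine (ae_map_iff (p := fun x => x ∈ Icc (0 : ℝ) 1) (RR_meas d).aemeasurable
    measurableSet_Icc).2 ?_
  refine ae_of_all _ fun x => ⟨ENNReal.toReal_nonneg, ?_⟩
  exact measureReal_le_one

theorem law_mom {d : ℕ} (hd : 0 < d) (m : ℕ) :
    ∫ x, x ^ m ∂(law d) = (mom (Fin d) m).toReal := by
  rw [law_eq hd, integral_map (RR_meas d).aemeasurable (by fun_prop), mom_real]
  refine integral_congr_ae ?_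
  filter_upwards [Q_ae d] with x hx
  congr 1
  unfold RR qq
  rw [measureReal_def, hx]

theorem mom_sym' (d k : ℕ) : mom (Fin d) k = mom (Fin k) d := by
  have := mom_symm (Fin k) (Fin d)
  simpa using this

/-- The measure `μ_d` of the problem. -/
noncomputable def mu (d : ℕ) : Measure (Set.Ioi (0 : ℝ)) :=
  (ENNReal.ofReal (2 ^ d * d) • law d).comap Subtype.val

theorem alpha_aem {d : ℕ} (hd : 0 < d) :
    AEMeasurable (alpha d) (Measure.pi fun _ : Fin d => unif d) := by
  refine ⟨fun u => RR d (fun i => vl (u i)), (RR_meas d).comp meas_vv, ?_⟩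
  filter_upwards [det_sph hd] with u hu
  exact alpha_eq hd u hu

theorem main : ∃ μ : Measure (Set.Ioi (0 : ℝ)), IsLocallyFiniteMeasure μ ∧ μ ≠ 0 ∧
    ∀ f : Set.Ioi (0 : ℝ) → ℝ, Continuous f → HasCompactSupport f →
      Tendsto (fun d : ℕ => ∫ x, f x ∂(mu d)) atTop (𝓝 (∫ x, f x ∂μ)) := by
  have : ∀ d : ℕ, IsProbabilityMeasure (law (d + 1)) := fun d => law_prob (Nat.succ_pos d)
  obtain ⟨μ, h1, h2, h3⟩ := vague (fun d => (2 : ℝ) ^ (d + 1) * ((d + 1 : ℕ) : ℝ))
    (fun d => law (d + 1)) (fun d => by positivity) (fun d => law_supp (Nat.succ_pos d)) (by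
      intro k
      obtain ⟨c, hc, hc2⟩ := mom_lim (k + 1)
      refine ⟨c, hc, ?_⟩
      have h4 := (tendsto_add_atTop_iff_nat 1).2 hc2
      refine h4.congr fun d => ?_
      rw [law_mom (Nat.succ_pos d), mom_sym' (d + 1) (k + 2)])
  refine ⟨μ, h1, h2, fun f hf hs => ?_⟩
  rw [← tendsto_add_atTop_iff_nat 1]
  exact h3 f hf hs

end Pool.Agent.V11331.SA
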