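import Pool.Agent.V11331.GC.Step
import Pool.Agent.H988R2.Gauss

/-! Symmetry of the moments of the random solid angle: the matrix-variate `t` density. -/

set_option autoImplicit false
set_option linter.unusedSectionVars false

open MeasureTheory ProbabilityTheory Filter Topology WithLp Matrix
open scoped ENNReal NNReal Kronecker MatrixOrder

namespace Pool.Agent.V11331.SA

open Pool.Agent.V11331.GC

/-- Density of the standard Gaussian. -/
noncomputable def gd (κ : Type) [Fintype κ] (z : κ → ℝ) : ℝ≥0∞ :=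
  ENNReal.ofReal (((Real.sqrt (2 * Real.pi))⁻¹) ^ (Fintype.card κ)) *
    ENNReal.ofReal (Real.exp (-(∑ i, z i ^ 2) / 2))

lemma gd_meas (κ : Type) [Fintype κ] : Measurable (gd κ) := by
  unfold gd; fun_prop

lemma gam_density (κ : Type) [Fintype κ] :
    gam κ = (volume : Measure (κ → ℝ)).withDensity (gd κ) := by
  rw [gam, Measure.infinitePi_eq_pi]
  have h3 : (fun _ : κ => gaussianReal 0 1) =
      fun _ : κ => (volume : Measure ℝ).withDensity (gaussianPDF 0 1) := by
    funext _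
    exact gaussianReal_of_var_ne_zero 0 one_ne_zero
  have hsf : ∀ _ : κ, SigmaFinite ((volume : Measure ℝ).withDensity
      (gaussianPDF 0 1)) := by
    intro _
    rw [← gaussianReal_of_var_ne_zero 0 one_ne_zero]
    infer_instance
  rw [h3, Pool.Agent.H988R2.pi_withDensity_real (fun _ : κ => gaussianPDF 0 1)
    (fun _ => measurable_gaussianPDF 0 1) hsf]
  congr 1
  ext y
  have h2 : ∀ i, gaussianPDF 0 1 (y i) =
      ENNReal.ofReal ((Real.sqrt (2 * Real.pi))⁻¹ * Real.exp (-(y i ^ 2) / 2)) := by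
    intro i
    rw [gaussianPDF_def, gaussianPDFReal_def]
    simp
  simp_rw [h2]
  rw [← ENNReal.ofReal_prod_of_nonneg (fun i _ => by positivity)]
  rw [Finset.prod_mul_distrib, Finset.prod_const, Finset.card_univ, ← Real.exp_sum]
  unfold gd
  rw [← ENNReal.ofReal_mul (by positivity)]
  congr 3
  rw [← Finset.sum_div, Finset.sum_neg_distrib]

lemma lintegral_gam (κ : Type) [Fintype κ] (f : (κ → ℝ) → ℝ≥0∞) (hf : Measurable f) :
    ∫⁻ x, f x ∂(gam κ) = ∫⁻ x, gd κ x * f x := by
  rw [gam_density, lintegral_withDensity_eq_lintegral_mul _ (gd_meas κ) hf]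
  rfl

lemma gam_ac (κ : Type) [Fintype κ] : gam κ ≪ (volume : Measure (κ → ℝ)) := by
  rw [gam_density]; exact withDensity_absolutelyContinuous _ _

/-- the flattened array as a matrix -/
def mt {A B : Type} (X : A × B → ℝ) : Matrix A B ℝ := fun i a => X (i, a)

/-- a matrix as a flattened array -/
def fl {A B : Type} (M : Matrix A B ℝ) : A × B → ℝ := fun p => M p.1 p.2

@[simp] lemma mt_fl {A B : Type} (M : Matrix A B ℝ) : mt (fl M) = M := rfl
@[simp] lemma fl_mt {A B : Type} (X : A × B → ℝ) : fl (mt X) = X := rfl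

lemma lint_lin {ι : Type} [Fintype ι] [DecidableEq ι] (M : Matrix ι ι ℝ) (h : M.det ≠ 0)
    (f : (ι → ℝ) → ℝ≥0∞) (hf : Measurable f) :
    ∫⁻ x, f (M.mulVec x) = ENNReal.ofReal |M.det|⁻¹ * ∫⁻ x, f x := by
  have h1 := Real.map_matrix_volume_pi_eq_smul_volume_pi h
  have h2 : ∫⁻ x, f x ∂(Measure.map (toLin' M) volume) = ∫⁻ x, f (M.mulVec x) := by
    rw [lintegral_map hf (by
      have : Continuous (toLin' M) := (toLin' M).continuous_of_finiteDimensional
      exact this.measurable)]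
    rfl
  rw [← h2, h1, lintegral_smul_measure, abs_inv]
  rfl

variable {J K : Type} [Fintype J] [Fintype K] [DecidableEq J] [DecidableEq K]

lemma kron_right (X : Matrix K K ℝ) (Λ : J × K → ℝ) :
    ((1 : Matrix J J ℝ) ⊗ₖ Xᵀ).mulVec Λ = fl (mt Λ * X) := by
  ext ⟨j, a⟩
  simp only [mulVec, dotProduct, kroneckerMap_apply, fl, mt, Matrix.mul_apply,
    Fintype.sum_prod_type, Matrix.one_apply, transpose_apply]
  simp [Finset.sum_ite_eq, mul_comm]

lemma kron_left (B : Matrix K K ℝ) (X : K × K → ℝ) :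
    (B ⊗ₖ (1 : Matrix K K ℝ)).mulVec X = fl (B * mt X) := by
  ext ⟨i, a⟩
  simp only [mulVec, dotProduct, kroneckerMap_apply, fl, mt, Matrix.mul_apply,
    Fintype.sum_prod_type, Matrix.one_apply]
  simp [Finset.sum_ite_eq, mul_comm]

lemma lint_right (X : Matrix K K ℝ) (h : X.det ≠ 0) (f : (J × K → ℝ) → ℝ≥0∞)
    (hf : Measurable f) :
    ∫⁻ Λ : J × K → ℝ, f (fl (mt Λ * X)) = ENNReal.ofReal (|X.det| ^ Fintype.card J)⁻¹ * ∫⁻ Z, f Z := by
  have h1 : ((1 : Matrix J J ℝ) ⊗ₖ Xᵀ).det = X.det ^ Fintype.card J := by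
    rw [det_kronecker, det_one, one_pow, one_mul, det_transpose]
  have h2 := lint_lin ((1 : Matrix J J ℝ) ⊗ₖ Xᵀ) (by rw [h1]; exact pow_ne_zero _ h) f hf
  rw [h1, abs_pow] at h2
  rw [← h2]
  refine lintegral_congr fun Λ => ?_
  rw [kron_right]

lemma lint_left (B : Matrix K K ℝ) (h : B.det ≠ 0) (f : (K × K → ℝ) → ℝ≥0∞)
    (hf : Measurable f) :
    ∫⁻ X : K × K → ℝ, f (fl (B * mt X)) = ENNReal.ofReal (|B.det| ^ Fintype.card K)⁻¹ * ∫⁻ Z, f Z := by
  have h1 : (B ⊗ₖ (1 : Matrix K K ℝ)).det = B.det ^ Fintype.card K := by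
    rw [det_kronecker, det_one, one_pow, mul_one]
  have h2 := lint_lin (B ⊗ₖ (1 : Matrix K K ℝ)) (by rw [h1]; exact pow_ne_zero _ h) f hf
  rw [h1, abs_pow] at h2
  rw [← h2]
  refine lintegral_congr fun Λ => ?_
  rw [kron_left]

/-- Sum of squares of the entries. -/
noncomputable def sq {A : Type} [Fintype A] (z : A → ℝ) : ℝ := ∑ i, z i ^ 2

lemma sq_eq_trace {A B : Type} [Fintype A] [Fintype B] (M : Matrix A B ℝ) :
    sq (fl M) = (Mᵀ * M).trace := by
  unfold sq fl
  simp only [Matrix.trace, diag_apply, Matrix.mul_apply, transpose_apply]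
  rw [Fintype.sum_prod_type, Finset.sum_comm]
  refine Finset.sum_congr rfl fun i _ => Finset.sum_congr rfl fun j _ => by ring

lemma sq_add (X : K × K → ℝ) (Λ : J × K → ℝ) (B : Matrix K K ℝ)
    (hB : Bᵀ * B = 1 + (mt Λ)ᵀ * mt Λ) :
    sq (fl (B * mt X)) = sq X + sq (fl (mt Λ * mt X)) := by
  have h0 : sq X = sq (fl (mt X)) := rfl
  rw [h0, sq_eq_trace, sq_eq_trace, sq_eq_trace, ← trace_add]
  congr 1
  rw [transpose_mul, transpose_mul]
  have h1 : (mt X)ᵀ * Bᵀ * (B * mt X) = (mt X)ᵀ * (Bᵀ * B) * mt X := by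
    simp only [Matrix.mul_assoc]
  have h2 : (mt X)ᵀ * (mt Λ)ᵀ * (mt Λ * mt X) = (mt X)ᵀ * ((mt Λ)ᵀ * mt Λ) * mt X := by
    simp only [Matrix.mul_assoc]
  rw [h1, hB, h2, Matrix.mul_add, Matrix.add_mul, Matrix.mul_one]

/-- The determinant `det (1 + ΛᵀΛ)`. -/
noncomputable def dl (Λ : J × K → ℝ) : ℝ := (1 + (mt Λ)ᵀ * mt Λ).det

lemma exists_root (Λ : J × K → ℝ) :
    ∃ B : Matrix K K ℝ, Bᵀ * B = 1 + (mt Λ)ᵀ * mt Λ := by
  have h1 : (1 + (mt Λ)ᵀ * mt Λ).PosSemidef := by
    have h2 : ((mt Λ)ᵀ * mt Λ).PosSemidef := by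
      have := Matrix.posSemidef_conjTranspose_mul_self (mt Λ)
      rwa [conjTranspose_eq_transpose_of_trivial] at this
    exact Matrix.PosSemidef.one.add h2
  obtain ⟨B, hB⟩ := CStarAlgebra.nonneg_iff_eq_star_mul_self.mp h1.nonneg
  refine ⟨B, ?_⟩
  rw [hB, star_eq_conjTranspose, conjTranspose_eq_transpose_of_trivial]

lemma dl_pos (Λ : J × K → ℝ) : 0 < dl Λ := by
  have h1 : (1 + (mt Λ)ᵀ * mt Λ).PosDef := by
    have h2 : ((mt Λ)ᵀ * mt Λ).PosSemidef := by
      have := Matrix.posSemidef_conjTranspose_mul_self (mt Λ)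
      rwa [conjTranspose_eq_transpose_of_trivial] at this
    exact Matrix.PosDef.one.add_posSemidef h2
  exact h1.det_pos

lemma gd_eq {A : Type} [Fintype A] (z : A → ℝ) : gd A z =
    ENNReal.ofReal (((Real.sqrt (2 * Real.pi))⁻¹) ^ (Fintype.card A)) *
    ENNReal.ofReal (Real.exp (-(sq z) / 2)) := rfl

/-- the normalising factor -/
noncomputable def c2 (J K : Type) [Fintype J] [Fintype K] : ℝ≥0∞ :=
  ENNReal.ofReal (((Real.sqrt (2 * Real.pi))⁻¹) ^ (Fintype.card (K × K))) *
    ENNReal.ofReal (((Real.sqrt (2 * Real.pi))⁻¹) ^ (Fintype.card (J × K)))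

/-- the kernel integrated over the square matrices -/
noncomputable def kf (J K : Type) [Fintype J] [Fintype K] [DecidableEq K] (X : K × K → ℝ) :
    ℝ≥0∞ := ENNReal.ofReal (Real.exp (-(sq X) / 2)) *
      ENNReal.ofReal (|(mt X).det| ^ Fintype.card J)

lemma cont_det : Continuous fun X : K × K → ℝ => (mt X).det := by
  refine Continuous.matrix_det ?_
  unfold mt
  exact continuous_pi fun i => continuous_pi fun a => continuous_apply _

lemma cont_mul : Continuous fun p : (K × K → ℝ) × (J × K → ℝ) => fl (mt p.2 * mt p.1) := by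
  unfold fl mt
  simp only [Matrix.mul_apply]
  fun_prop

lemma cont_mul_right (M : Matrix K K ℝ) : Continuous fun Z : J × K → ℝ => fl (mt Z * M) := by
  unfold fl mt
  simp only [Matrix.mul_apply]
  fun_prop

lemma sq_cont {A : Type} [Fintype A] : Continuous (sq : (A → ℝ) → ℝ) := by
  unfold sq; fun_prop

lemma kf_meas : Measurable (kf J K) := by
  unfold kf
  have h1 : Measurable fun X : K × K → ℝ => (mt X).det := cont_det.measurable
  have h2 : Measurable (sq : (K × K → ℝ) → ℝ) := sq_cont.measurable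
  fun_prop

/-- the normalising constant -/
noncomputable def cst (J K : Type) [Fintype J] [Fintype K] [DecidableEq K] : ℝ≥0∞ :=
  c2 J K * ∫⁻ X : K × K → ℝ, kf J K X

/-- the weight -/
noncomputable def wt (Λ : J × K → ℝ) : ℝ≥0∞ :=
  (ENNReal.ofReal (Real.sqrt (dl Λ) ^ (Fintype.card K + Fintype.card J)))⁻¹

lemma inner_int (Λ : J × K → ℝ) :
    ∫⁻ X : K × K → ℝ, gd (K × K) X * (ENNReal.ofReal (|(mt X).det| ^ Fintype.card J) *
      gd (J × K) (fl (mt Λ * mt X))) = cst J K * wt Λ := by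
  obtain ⟨B, hB⟩ := exists_root Λ
  have hd : B.det ^ 2 = dl Λ := by
    unfold dl
    rw [← hB, det_mul, det_transpose]; ring
  have hd' : |B.det| = Real.sqrt (dl Λ) := by
    rw [← hd, Real.sqrt_sq_eq_abs]
  have hpos : 0 < |B.det| := by
    rw [hd']; exact Real.sqrt_pos.2 (dl_pos Λ)
  have hdet : B.det ≠ 0 := abs_pos.1 hpos
  have h1 := lint_left B hdet (kf J K) kf_meas
  have h2 : ∀ X : K × K → ℝ, gd (K × K) X * (ENNReal.ofReal (|(mt X).det| ^ Fintype.card J) *
      gd (J × K) (fl (mt Λ * mt X))) = (c2 J K * (ENNReal.ofReal (|B.det| ^ Fintype.card J))⁻¹) *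
      kf J K (fl (B * mt X)) := by
    intro X
    have h3 : kf J K (fl (B * mt X)) = ENNReal.ofReal (|B.det| ^ Fintype.card J) *
        (ENNReal.ofReal (Real.exp (-(sq X) / 2)) *
        ENNReal.ofReal (Real.exp (-(sq (fl (mt Λ * mt X))) / 2)) *
        ENNReal.ofReal (|(mt X).det| ^ Fintype.card J)) := by
      unfold kf
      rw [sq_add X Λ B hB, mt_fl, det_mul, abs_mul, mul_pow,
        ENNReal.ofReal_mul (by positivity), ← ENNReal.ofReal_mul (Real.exp_pos _).le,
        ← Real.exp_add]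
      have : -(sq X + sq (fl (mt Λ * mt X))) / 2 = -sq X / 2 + -sq (fl (mt Λ * mt X)) / 2 := by
        ring
      rw [this]
      ring
    have h4 : (ENNReal.ofReal (|B.det| ^ Fintype.card J))⁻¹ *
        ENNReal.ofReal (|B.det| ^ Fintype.card J) = 1 := by
      apply ENNReal.inv_mul_cancel
      · exact (ENNReal.ofReal_pos.2 (by positivity)).ne'
      · exact ENNReal.ofReal_ne_top
    rw [h3, gd_eq, gd_eq]
    calc _ = c2 J K * 1 * (ENNReal.ofReal (Real.exp (-(sq X) / 2)) *
        ENNReal.ofReal (Real.exp (-(sq (fl (mt Λ * mt X))) / 2)) *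
        ENNReal.ofReal (|(mt X).det| ^ Fintype.card J)) := by unfold c2; ring
      _ = _ := by rw [← h4]; ring
  simp_rw [h2]
  have h7 : Measurable fun X : K × K → ℝ => kf J K (fl (B * mt X)) := kf_meas.comp (by
    have : Continuous fun X : K × K → ℝ => fl (B * mt X) := by
      unfold fl mt
      simp only [Matrix.mul_apply]
      fun_prop
    exact this.measurable)
  rw [lintegral_const_mul _ h7, h1]
  unfold cst wt
  rw [← hd', pow_add, ENNReal.ofReal_mul (by positivity),
    ENNReal.mul_inv (Or.inr ENNReal.ofReal_ne_top) (Or.inl ENNReal.ofReal_ne_top),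
    ENNReal.ofReal_inv_of_pos (by positivity)]
  ring

lemma det_ae_vol : ∀ᵐ X : K × K → ℝ, (mt X).det ≠ 0 := by
  let L : ℝ →ₗ[ℝ] (K × K → ℝ) := LinearMap.toSpanSingleton ℝ _
    (fun p => if p.1 = p.2 then 1 else 0)
  have hmeas : MeasurableSet {x : K × K → ℝ | (mt x).det ≠ 0} :=
    (cont_det.measurable (measurableSet_singleton (0 : ℝ))).compl
  exact ae_mem_of_ae_add_linearMap_mem L volume volume hmeas (by
    intro y
    have hfin : {s : ℝ | (mt y + s • (1 : Matrix K K ℝ)).det = 0}.Finite := by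
      have hne : (-(mt y)).charpoly ≠ 0 := (charpoly_monic _).ne_zero
      refine (Polynomial.finite_setOfPred_isRoot hne).subset ?_
      intro s hs
      simp only [Set.mem_ofPred_eq] at hs
      simp only [Set.mem_ofPred_eq, Polynomial.IsRoot.def, eval_charpoly]
      rw [← hs]
      congr 1
      ext i j
      by_cases hij : i = j
      · subst hij; simp; ring
      · simp [hij]
    have h1 : ∀ᵐ s : ℝ, (mt y + s • (1 : Matrix K K ℝ)).det ≠ 0 := by
      rw [ae_iff]
      simp only [not_not]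
      exact hfin.measure_zero _
    filter_upwards [h1] with s hs
    show (mt (y + L s)).det ≠ 0
    convert hs using 2
    ext i j
    by_cases hij : i = j
    · subst hij; simp [L, mt]
    · simp [L, mt, hij])

lemma det_ae : ∀ᵐ X ∂(gam (K × K)), (mt X).det ≠ 0 :=
  (gam_ac (K × K)).ae_le det_ae_vol

/-- The probability that `Z X⁻¹ ∈ P`. -/
noncomputable def TT (P : Set (J × K → ℝ)) : ℝ≥0∞ :=
  ∫⁻ X, gam (J × K) {Z | fl (mt Z * (mt X)⁻¹) ∈ P} ∂(gam (K × K))

theorem TT_eq (P : Set (J × K → ℝ)) (hP : MeasurableSet P) :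
    TT P = cst J K * ∫⁻ Λ, P.indicator 1 Λ * wt Λ := by
  have hind : Measurable (P.indicator (1 : (J × K → ℝ) → ℝ≥0∞)) :=
    measurable_one.indicator hP
  have hdm : Measurable fun X : K × K → ℝ => (mt X).det := cont_det.measurable
  have hcm : Measurable fun p : (K × K → ℝ) × (J × K → ℝ) => fl (mt p.2 * mt p.1) :=
    cont_mul.measurable
  have h1 : TT P = ∫⁻ X, (∫⁻ Λ : J × K → ℝ, P.indicator 1 Λ *
      (ENNReal.ofReal (|(mt X).det| ^ Fintype.card J) *
      gd (J × K) (fl (mt Λ * mt X)))) ∂(gam (K × K)) := by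
    unfold TT
    refine lintegral_congr_ae ?_
    filter_upwards [det_ae] with X hX
    have hS : MeasurableSet {Z : J × K → ℝ | fl (mt Z * (mt X)⁻¹) ∈ P} :=
      (cont_mul_right _).measurable hP
    have hf : Measurable fun Z : J × K → ℝ =>
        gd (J × K) Z * {Z : J × K → ℝ | fl (mt Z * (mt X)⁻¹) ∈ P}.indicator 1 Z :=
      (gd_meas _).mul (measurable_one.indicator hS)
    have h2 := lint_right (J := J) (mt X) hX _ hf
    have hpos : 0 < |(mt X).det| ^ Fintype.card J := by
      have := abs_pos.2 hX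
      positivity
    have h3 : gam (J × K) {Z | fl (mt Z * (mt X)⁻¹) ∈ P} = ∫⁻ Z : J × K → ℝ,
        gd (J × K) Z * {Z : J × K → ℝ | fl (mt Z * (mt X)⁻¹) ∈ P}.indicator 1 Z := by
      rw [← lintegral_gam _ _ (measurable_one.indicator hS), lintegral_indicator_one hS]
    have h4 : ∫⁻ Z : J × K → ℝ,
        gd (J × K) Z * {Z : J × K → ℝ | fl (mt Z * (mt X)⁻¹) ∈ P}.indicator 1 Z =
        ENNReal.ofReal (|(mt X).det| ^ Fintype.card J) *
        ∫⁻ Λ : J × K → ℝ, gd (J × K) (fl (mt Λ * mt X)) *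
          {Z : J × K → ℝ | fl (mt Z * (mt X)⁻¹) ∈ P}.indicator 1 (fl (mt Λ * mt X)) := by
      rw [h2, ← mul_assoc, ← ENNReal.ofReal_mul hpos.le, mul_inv_cancel₀ hpos.ne',
        ENNReal.ofReal_one, one_mul]
    rw [h3, h4, ← lintegral_const_mul _ (by
      have : Measurable fun Λ : J × K → ℝ => fl (mt Λ * mt X) := (cont_mul_right _).measurable
      exact hf.comp this)]
    refine lintegral_congr fun Λ => ?_
    have h5 : {Z : J × K → ℝ | fl (mt Z * (mt X)⁻¹) ∈ P}.indicator
        (1 : (J × K → ℝ) → ℝ≥0∞) (fl (mt Λ * mt X)) = P.indicator 1 Λ := by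
      have h6 : fl (mt (fl (mt Λ * mt X)) * (mt X)⁻¹) = Λ := by
        rw [mt_fl, Matrix.mul_assoc, Matrix.mul_nonsing_inv _ (isUnit_iff_ne_zero.2 hX),
          Matrix.mul_one, fl_mt]
      by_cases hΛ : Λ ∈ P
      · rw [Set.indicator_of_mem hΛ, Set.indicator_of_mem]
        · rfl
        show fl (mt (fl (mt Λ * mt X)) * (mt X)⁻¹) ∈ P
        rwa [h6]
      · rw [Set.indicator_of_notMem hΛ, Set.indicator_of_notMem]
        intro h7
        apply hΛ
        have h8 : fl (mt (fl (mt Λ * mt X)) * (mt X)⁻¹) ∈ P := h7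
        rwa [h6] at h8
    rw [h5]
    ring
  have hm2 : Measurable fun p : (K × K → ℝ) × (J × K → ℝ) => P.indicator 1 p.2 *
      (ENNReal.ofReal (|(mt p.1).det| ^ Fintype.card J) *
      gd (J × K) (fl (mt p.2 * mt p.1))) := by
    refine (hind.comp measurable_snd).mul (Measurable.mul ?_ ((gd_meas _).comp hcm))
    have : Measurable fun p : (K × K → ℝ) × (J × K → ℝ) => (mt p.1).det :=
      hdm.comp measurable_fst
    fun_prop
  rw [h1, lintegral_gam _ _ hm2.lintegral_prod_right']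
  have h9 : ∫⁻ X : K × K → ℝ, gd (K × K) X * ∫⁻ Λ : J × K → ℝ, P.indicator 1 Λ *
      (ENNReal.ofReal (|(mt X).det| ^ Fintype.card J) * gd (J × K) (fl (mt Λ * mt X))) =
      ∫⁻ X : K × K → ℝ, ∫⁻ Λ : J × K → ℝ, gd (K × K) X * (P.indicator 1 Λ *
      (ENNReal.ofReal (|(mt X).det| ^ Fintype.card J) * gd (J × K) (fl (mt Λ * mt X)))) := by
    refine lintegral_congr fun X => ?_
    exact (lintegral_const_mul _ (hm2.comp measurable_prodMk_left)).symm
  rw [h9, lintegral_lintegral_swap (by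
    exact (((gd_meas _).comp measurable_fst).mul hm2).aemeasurable), ← lintegral_const_mul _ (by
    unfold wt dl
    have hc : Continuous fun Λ : J × K → ℝ => ((1 : Matrix K K ℝ) + (mt Λ)ᵀ * mt Λ).det := by
      refine Continuous.matrix_det ?_
      refine continuous_const.add ?_
      refine continuous_pi fun i => continuous_pi fun a => ?_
      simp only [Matrix.mul_apply, transpose_apply, mt]
      fun_prop
    have hc' := hc.measurable
    refine hind.mul ?_
    fun_prop)]
  refine lintegral_congr fun Λ => ?_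
  have h10 := inner_int Λ
  calc ∫⁻ X : K × K → ℝ, gd (K × K) X * (P.indicator 1 Λ *
      (ENNReal.ofReal (|(mt X).det| ^ Fintype.card J) * gd (J × K) (fl (mt Λ * mt X)))) =
      ∫⁻ X : K × K → ℝ, P.indicator 1 Λ * (gd (K × K) X *
      (ENNReal.ofReal (|(mt X).det| ^ Fintype.card J) * gd (J × K) (fl (mt Λ * mt X)))) := by
        refine lintegral_congr fun X => by ring
    _ = P.indicator 1 Λ * (cst J K * wt Λ) := by
        rw [lintegral_const_mul _ (by
          have h11 : Measurable fun X : K × K → ℝ => fl (mt Λ * mt X) :=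
            hcm.comp measurable_prodMk_right
          exact (gd_meas _).mul (Measurable.mul (by fun_prop) ((gd_meas _).comp h11))), h10]
    _ = _ := by ring

lemma dl_swap (Λ : J × K → ℝ) : dl (J := K) (K := J) (fun p => Λ p.swap) = dl Λ := by
  unfold dl
  have h1 : mt (fun p : K × J => Λ p.swap) = (mt Λ)ᵀ := rfl
  rw [h1, transpose_transpose, det_one_add_mul_comm]

lemma wt_swap (Λ : J × K → ℝ) : wt (J := K) (K := J) (fun p => Λ p.swap) = wt Λ := by
  unfold wt
  rw [dl_swap, add_comm]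

lemma wt_meas : Measurable (wt : (J × K → ℝ) → ℝ≥0∞) := by
  unfold wt dl
  have hc : Continuous fun Λ : J × K → ℝ => ((1 : Matrix K K ℝ) + (mt Λ)ᵀ * mt Λ).det := by
    refine Continuous.matrix_det ?_
    refine continuous_const.add ?_
    refine continuous_pi fun i => continuous_pi fun a => ?_
    simp only [Matrix.mul_apply, transpose_apply, mt]
    fun_prop
  have hc' := hc.measurable
  fun_prop

lemma int_swap (P : Set (J × K → ℝ)) :
    ∫⁻ Λ : K × J → ℝ, ({Λ : K × J → ℝ | (fun p : J × K => Λ p.swap) ∈ P}).indicator 1 Λ * wt Λ =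
      ∫⁻ Λ : J × K → ℝ, P.indicator 1 Λ * wt Λ := by
  have h1 := volume_measurePreserving_piCongrLeft (fun _ : J × K => ℝ) (Equiv.prodComm K J)
  rw [← h1.lintegral_comp_emb (MeasurableEquiv.measurableEmbedding _)]
  refine lintegral_congr fun Λ => ?_
  have h2 : (MeasurableEquiv.piCongrLeft (fun _ : J × K => ℝ) (Equiv.prodComm K J)) Λ =
      fun p : J × K => Λ p.swap := by
    ext p
    obtain ⟨j, k⟩ := p
    exact Equiv.piCongrLeft_apply_apply (fun _ : J × K => ℝ) (Equiv.prodComm K J) Λ (k, j)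
  rw [h2]
  have h3 : wt (fun p : J × K => Λ p.swap) = wt Λ := wt_swap (J := K) (K := J) Λ
  rw [h3]
  rfl

theorem TT_swap (P : Set (J × K → ℝ)) (hP : MeasurableSet P) :
    TT {Λ : K × J → ℝ | (fun p : J × K => Λ p.swap) ∈ P} = TT P := by
  have hsw : Measurable fun Λ : K × J → ℝ => (fun p : J × K => Λ p.swap) :=
    measurable_pi_iff.2 fun p => measurable_pi_apply _
  have hu1 : TT (Set.univ : Set (J × K → ℝ)) = 1 := by
    unfold TT; simp
  have hu2 : TT (Set.univ : Set (K × J → ℝ)) = 1 := by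
    unfold TT; simp
  rw [TT_eq _ MeasurableSet.univ] at hu1 hu2
  have h3 := int_swap (J := J) (K := K) Set.univ
  simp only [Set.mem_univ, Set.ofPred_true] at h3
  rw [h3] at hu2
  set I := ∫⁻ Λ : J × K → ℝ, (Set.univ : Set (J × K → ℝ)).indicator 1 Λ * wt Λ with hI
  have hI0 : I ≠ 0 := by
    intro h; rw [h, mul_zero] at hu1; exact zero_ne_one hu1
  have hIt : I ≠ ⊤ := by
    intro h
    rw [h] at hu1
    by_cases hc : cst J K = 0
    · rw [hc, zero_mul] at hu1; exact zero_ne_one hu1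
    · rw [ENNReal.mul_top hc] at hu1; exact ENNReal.top_ne_one hu1
  have hcc : cst K J = cst J K := by
    have := hu2.trans hu1.symm
    exact (ENNReal.mul_left_inj hI0 hIt).1 this
  have hm : MeasurableSet {Λ : K × J → ℝ | (fun p : J × K => Λ p.swap) ∈ P} := hsw hP
  rw [TT_eq _ hm, TT_eq _ hP, int_swap, hcc]

/-- The positive hull of a finite family of vectors. -/
def posHull {V ι : Type} [Fintype ι] [AddCommGroup V] [Module ℝ V] (x : ι → V) : Set V :=
  {y | ∃ lam : ι → ℝ, (∀ i, 0 ≤ lam i) ∧ y = ∑ i, lam i • x i}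

lemma posHull_iff (X : K × K → ℝ) (hX : (mt X).det ≠ 0) (z : K → ℝ) :
    z ∈ posHull (fun i a => X (i, a)) ↔ ∀ i, 0 ≤ (vecMul z (mt X)⁻¹) i := by
  constructor
  · rintro ⟨lam, h1, h2⟩ i
    have h3 : z = vecMul lam (mt X) := by
      rw [h2]; ext a
      simp [vecMul, dotProduct, mt, Finset.sum_apply]
    rw [h3, vecMul_vecMul, Matrix.mul_nonsing_inv _ (isUnit_iff_ne_zero.2 hX), vecMul_one]
    exact h1 i
  · intro h
    refine ⟨_, h, ?_⟩
    have h3 : z = vecMul (vecMul z (mt X)⁻¹) (mt X) := by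
      rw [vecMul_vecMul, Matrix.nonsing_inv_mul _ (isUnit_iff_ne_zero.2 hX), vecMul_one]
    conv_lhs => rw [h3]
    ext a
    simp [vecMul, dotProduct, mt, Finset.sum_apply]

/-- The nonnegative arrays. -/
def nn (A : Type) : Set (A → ℝ) := {z | ∀ p, 0 ≤ z p}

lemma nn_meas (A : Type) [Fintype A] : MeasurableSet (nn A) := by
  have : nn A = ⋂ p, {z : A → ℝ | 0 ≤ z p} := by ext z; simp [nn]
  rw [this]
  exact MeasurableSet.iInter fun p => measurableSet_le measurable_const (measurable_pi_apply p)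

lemma pow_eq (X : K × K → ℝ) (hX : (mt X).det ≠ 0) :
    gam (J × K) {Z | fl (mt Z * (mt X)⁻¹) ∈ nn (J × K)} =
      (gam K (posHull (fun i a => X (i, a)))) ^ Fintype.card J := by
  have h1 : (gam (J × K)).map (MeasurableEquiv.curry J K ℝ) =
      Measure.infinitePi fun _ : J => gam K :=
    Measure.infinitePi_map_curry (ι := J) (κ := K) (fun _ _ => gaussianReal 0 1)
  have h2 : {Z : J × K → ℝ | fl (mt Z * (mt X)⁻¹) ∈ nn (J × K)} =
      (MeasurableEquiv.curry J K ℝ) ⁻¹' (Set.univ.pi fun _ : J =>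
        posHull (fun i a => X (i, a))) := by
    ext Z
    simp only [Set.mem_ofPred_eq, Set.mem_preimage, Set.mem_univ_pi]
    constructor
    · intro h j
      rw [posHull_iff X hX]
      intro i
      have := h (j, i)
      simpa [fl, mt, Matrix.mul_apply, vecMul, dotProduct, MeasurableEquiv.curry] using this
    · rintro h ⟨j, i⟩
      have h3 := (posHull_iff X hX _).1 (h j) i
      simpa [fl, mt, Matrix.mul_apply, vecMul, dotProduct, MeasurableEquiv.curry] using h3
  rw [h2, ← MeasurableEquiv.map_apply, h1, Measure.infinitePi_eq_pi, Measure.pi_pi]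
  simp

/-- The moments of the Gaussian solid angle. -/
noncomputable def mom (K : Type) [Fintype K] (m : ℕ) : ℝ≥0∞ :=
  ∫⁻ X, (gam K (posHull (fun i a => X (i, a)))) ^ m ∂(gam (K × K))

theorem mom_eq_TT : TT (nn (J × K)) = mom K (Fintype.card J) := by
  unfold TT mom
  refine lintegral_congr_ae ?_
  filter_upwards [det_ae] with X hX
  exact pow_eq X hX

/-- The symmetry of the moments. -/
theorem mom_symm (J K : Type) [Fintype J] [Fintype K] [DecidableEq J] [DecidableEq K] :
    mom K (Fintype.card J) = mom J (Fintype.card K) := by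
  rw [← mom_eq_TT (J := J) (K := K), ← mom_eq_TT (J := K) (K := J),
    ← TT_swap (nn (J × K)) (nn_meas _)]
  congr 1
  ext Λ
  simp only [nn, Set.mem_ofPred_eq]
  constructor
  · rintro h ⟨k, j⟩
    exact h (j, k)
  · rintro h ⟨j, k⟩
    exact h (k, j)

end Pool.Agent.V11331.SA
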